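import Mathlib

set_option autoImplicit false

/-!
# MP_4086d8_co: companion matrices and scaling of characteristic polynomials
-/

namespace Pool.Agent.USC

open Polynomial

noncomputable section

theorem minpoly_root (g : ℤ[X]) (hg : g.Monic) : minpoly ℤ (AdjoinRoot.root g) = g := by
  symm
  refine minpoly.unique' ℤ _ hg ?_ ?_
  · rw [AdjoinRoot.aeval_eq, AdjoinRoot.mk_self]
  · intro q hq
    by_cases h0 : q = 0
    · exact Or.inl h0
    · refine Or.inr fun h1 => ?_
      rw [AdjoinRoot.aeval_eq, AdjoinRoot.mk_eq_zero] at h1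
      exact hg.not_dvd_of_degree_lt h0 hq h1

/-- every monic polynomial of degree at least two is the characteristic polynomial of an integer
matrix with `C 1 0 = 1` -/
theorem exists_companion (d : ℕ) (hd : 2 ≤ d) (g : ℤ[X]) (hg : g.Monic) (hgd : g.natDegree = d) :
    ∃ C : Matrix (Fin d) (Fin d) ℤ, C.charpoly = g ∧ C ⟨1, hd⟩ ⟨0, by omega⟩ = 1 := by
  subst hgd
  set pb := AdjoinRoot.powerBasis' hg with hpb
  have hgen : pb.gen = AdjoinRoot.root g := AdjoinRoot.powerBasis'_gen hg
  have hdim : pb.dim = g.natDegree := AdjoinRoot.powerBasis'_dim hg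
  refine ⟨Matrix.reindex (finCongr hdim) (finCongr hdim)
    (Algebra.leftMulMatrix pb.basis pb.gen), ?_, ?_⟩
  · rw [Matrix.charpoly_reindex, charpoly_leftMulMatrix, hgen, minpoly_root g hg]
  · rw [Matrix.reindex_apply, Matrix.submatrix_apply, Algebra.leftMulMatrix_eq_repr_mul]
    have h0 : pb.basis ((finCongr hdim).symm ⟨0, by omega⟩) = 1 := by
      rw [pb.basis_eq_pow]
      simp
    have h1 : pb.basis ((finCongr hdim).symm ⟨1, hd⟩) = pb.gen := by
      rw [pb.basis_eq_pow]
      simp
    rw [h0, mul_one, ← h1, Module.Basis.repr_self, Finsupp.single_eq_same]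

variable {n : Type} [Fintype n] [DecidableEq n]

theorem charpoly_smul_comp (c : ℤ) (A : Matrix n n ℤ) :
    (c • A).charpoly.comp (C c * X) = C (c ^ Fintype.card n) * A.charpoly := by
  have h1 : (c • A).charpoly.comp (C c * X) =
      (Polynomial.compRingHom (C c * X)) (c • A).charpoly := rfl
  rw [h1, Matrix.charpoly, RingHom.map_det]
  have h2 : (Polynomial.compRingHom (C c * X)).mapMatrix (c • A).charmatrix =
      (C c) • A.charmatrix := by
    refine Matrix.ext fun i j => ?_
    rw [RingHom.mapMatrix_apply, Matrix.map_apply, Matrix.smul_apply, smul_eq_mul,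
      coe_compRingHom_apply]
    by_cases hij : i = j
    · subst hij
      rw [Matrix.charmatrix_apply_eq, Matrix.charmatrix_apply_eq, sub_comp, X_comp, C_comp,
        Matrix.smul_apply, smul_eq_mul, map_mul, mul_sub]
    · rw [Matrix.charmatrix_apply_ne _ _ _ hij, Matrix.charmatrix_apply_ne _ _ _ hij, neg_comp,
        C_comp, Matrix.smul_apply, smul_eq_mul, map_mul, mul_neg]
  rw [h2, Matrix.det_smul, Matrix.charpoly, map_pow]

/-- equality of characteristic polynomials is preserved by scaling -/
theorem charpoly_smul_eq (c : ℤ) (hc : c ≠ 0) (A B : Matrix n n ℤ)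
    (h : A.charpoly = B.charpoly) : (c • A).charpoly = (c • B).charpoly := by
  have h1 : (c • A).charpoly.comp (C c * X) = (c • B).charpoly.comp (C c * X) := by
    rw [charpoly_smul_comp, charpoly_smul_comp, h]
  have h2 : ((c • A).charpoly - (c • B).charpoly).comp (C c * X) = 0 := by
    rw [sub_comp, h1, sub_self]
  rw [← sub_eq_zero]
  by_contra h3
  have h4 := Polynomial.comp_eq_zero_iff.1 h2
  rcases h4 with h4 | ⟨-, h4⟩
  · exact h3 h4
  · have h5 := congrArg (fun p => p.coeff 1) h4
    simp only [coeff_C_mul, coeff_X_one, mul_one, coeff_C_succ] at h5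
    exact hc h5

end

end Pool.Agent.USC
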