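import Pool.Agent.USC.Vdm

set_option autoImplicit false

/-!
# MP_4086d8_co: curves in the group of integer matrices
-/

namespace Pool.Agent.USC

open Finset

noncomputable section

variable {n : Type} [Fintype n] [DecidableEq n]

/-- `W` are the coefficients of a curve of conjugates of `X0` -/
def IsCurve (X0 : Matrix n n ℤ) (m : ℕ) (W : ℕ → Matrix n n ℤ) : Prop :=
  ∃ G Gi : ℤ → Matrix n n ℤ, (∀ s, G s * Gi s = 1) ∧ (∀ s, Gi s * G s = 1) ∧
    ∀ s, G s * X0 * Gi s = pol m W s

/-- the set of the coefficients -/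
def Cof (m : ℕ) (W : ℕ → Matrix n n ℤ) : Set (Matrix n n ℤ) := {X | ∃ l, l < m ∧ X = W l}

theorem isCurve_zero (X0 : Matrix n n ℤ) : IsCurve X0 1 (fun _ => X0) := by
  refine ⟨fun _ => 1, fun _ => 1, fun s => mul_one _, fun s => mul_one _, fun s => ?_⟩
  unfold pol
  simp

theorem conj_formula (E V : Matrix n n ℤ) (x : ℤ) :
    (1 + x • E) * V * (1 - x • E) = V + x • (E * V - V * E) + (x ^ 2) • (-(E * V * E)) := by
  simp only [add_mul, mul_sub, one_mul, mul_one, smul_mul_assoc, mul_smul_comm]
  module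

theorem unip_mul (E : Matrix n n ℤ) (hE : E * E = 0) (x : ℤ) : (1 + x • E) * (1 - x • E) = 1 := by
  rw [mul_sub, mul_one, add_mul, one_mul, smul_mul_assoc, mul_smul_comm, hE, smul_zero,
    smul_zero, add_zero, add_sub_cancel_right]

theorem unip_mul' (E : Matrix n n ℤ) (hE : E * E = 0) (x : ℤ) : (1 - x • E) * (1 + x • E) = 1 := by
  rw [mul_add, mul_one, sub_mul, one_mul, smul_mul_assoc, mul_smul_comm, hE, smul_zero,
    smul_zero, sub_zero, sub_add_cancel]

/-- the new coefficients -/
def stepW (E : Matrix n n ℤ) (m : ℕ) (W : ℕ → Matrix n n ℤ) (l : ℕ) : Matrix n n ℤ :=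
  if l < m then W l else if l < m + m then E * W (l - m) - W (l - m) * E
    else -(E * W (l - (m + m)) * E)

theorem pol_step (E : Matrix n n ℤ) (m : ℕ) (W : ℕ → Matrix n n ℤ) (s : ℤ) :
    pol (m + m + m) (stepW E m W) s = pol m W s + (s ^ m) • (E * pol m W s - pol m W s * E) +
      ((s ^ m) ^ 2) • (-(E * pol m W s * E)) := by
  have h0 : pol (m + m + m) (stepW E m W) s = ∑ l ∈ range m, s ^ l • W l +
      ∑ l ∈ range m, s ^ (m + l) • (E * W l - W l * E) +
      ∑ l ∈ range m, s ^ (m + m + l) • (-(E * W l * E)) := by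
    unfold pol
    rw [Finset.sum_range_add, Finset.sum_range_add]
    congr 1
    · congr 1
      · refine Finset.sum_congr rfl fun l hl => ?_
        rw [Finset.mem_range] at hl
        unfold stepW
        rw [if_pos hl]
      · refine Finset.sum_congr rfl fun l hl => ?_
        rw [Finset.mem_range] at hl
        unfold stepW
        rw [if_neg (by omega), if_pos (by omega), Nat.add_sub_cancel_left]
    · refine Finset.sum_congr rfl fun l hl => ?_
      rw [Finset.mem_range] at hl
      unfold stepW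
      rw [if_neg (by omega), if_neg (by omega), Nat.add_sub_cancel_left]
  have h1 : E * pol m W s = ∑ l ∈ range m, s ^ l • (E * W l) := by
    unfold pol
    rw [Finset.mul_sum]
    exact Finset.sum_congr rfl fun l _ => mul_smul_comm _ _ _
  have h2 : pol m W s * E = ∑ l ∈ range m, s ^ l • (W l * E) := by
    unfold pol
    rw [Finset.sum_mul]
    exact Finset.sum_congr rfl fun l _ => smul_mul_assoc _ _ _
  have h3 : E * pol m W s * E = ∑ l ∈ range m, s ^ l • (E * W l * E) := by
    rw [h1, Finset.sum_mul]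
    exact Finset.sum_congr rfl fun l _ => smul_mul_assoc _ _ _
  rw [h0, h3, h1, h2, ← Finset.sum_sub_distrib, Finset.smul_sum, ← Finset.sum_neg_distrib,
    Finset.smul_sum]
  unfold pol
  congr 1
  · congr 1
    refine Finset.sum_congr rfl fun l _ => ?_
    rw [← smul_sub, smul_smul, ← pow_add]
  · refine Finset.sum_congr rfl fun l _ => ?_
    rw [← smul_neg, smul_smul]
    congr 1
    ring

theorem isCurve_step (X0 : Matrix n n ℤ) (m : ℕ) (W : ℕ → Matrix n n ℤ) (h : IsCurve X0 m W)
    (E : Matrix n n ℤ) (hE : E * E = 0) : IsCurve X0 (m + m + m) (stepW E m W) := by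
  obtain ⟨G, Gi, h1, h2, h3⟩ := h
  refine ⟨fun s => (1 + s ^ m • E) * G s, fun s => Gi s * (1 - s ^ m • E), ?_, ?_, ?_⟩
  · intro s
    calc (1 + s ^ m • E) * G s * (Gi s * (1 - s ^ m • E))
        = (1 + s ^ m • E) * (G s * Gi s) * (1 - s ^ m • E) := by simp only [mul_assoc]
      _ = 1 := by rw [h1, mul_one, unip_mul E hE]
  · intro s
    calc Gi s * (1 - s ^ m • E) * ((1 + s ^ m • E) * G s)
        = Gi s * ((1 - s ^ m • E) * (1 + s ^ m • E)) * G s := by simp only [mul_assoc]
      _ = 1 := by rw [unip_mul' E hE, mul_one, h2]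
  · intro s
    rw [pol_step, ← h3, ← conj_formula]
    simp only [mul_assoc]

omit [DecidableEq n] in
theorem cof_step (m : ℕ) (W : ℕ → Matrix n n ℤ) (E : Matrix n n ℤ) :
    Cof m W ⊆ Cof (m + m + m) (stepW E m W) ∧
    ∀ X ∈ Cof m W, E * X - X * E ∈ Cof (m + m + m) (stepW E m W) := by
  constructor
  · rintro X ⟨l, hl, rfl⟩
    refine ⟨l, by omega, ?_⟩
    unfold stepW
    rw [if_pos hl]
  · rintro X ⟨l, hl, rfl⟩
    refine ⟨m + l, by omega, ?_⟩
    unfold stepW
    rw [if_neg (by omega), if_pos (by omega), Nat.add_sub_cancel_left]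

/-- a list of square zero matrices -/
theorem curve_list (X0 : Matrix n n ℤ) (L : List (Matrix n n ℤ)) :
    ∀ (m : ℕ) (W : ℕ → Matrix n n ℤ), IsCurve X0 m W → (∀ E ∈ L, E * E = 0) →
    ∃ (m' : ℕ) (W' : ℕ → Matrix n n ℤ), IsCurve X0 m' W' ∧ Cof m W ⊆ Cof m' W' ∧
      ∀ E ∈ L, ∀ X ∈ Cof m W, E * X - X * E ∈ Cof m' W' := by
  induction L with
  | nil =>
    intro m W h _
    exact ⟨m, W, h, subset_rfl, fun E hE => absurd hE (List.not_mem_nil)⟩
  | cons E L ih =>
    intro m W h hL
    have hE : E * E = 0 := hL E List.mem_cons_self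
    obtain ⟨h1, h2⟩ := cof_step m W E
    obtain ⟨m', W', h3, h4, h5⟩ := ih _ _ (isCurve_step X0 m W h E hE)
      (fun E' hE' => hL E' (List.mem_cons_of_mem _ hE'))
    refine ⟨m', W', h3, h1.trans h4, ?_⟩
    intro E' hE' X hX
    rcases List.mem_cons.1 hE' with rfl | hE''
    · exact h4 (h2 X hX)
    · exact h5 E' hE'' X (h1 hX)

/-- matrix units -/
abbrev mu (i j : n) : Matrix n n ℤ := Matrix.single i j 1

theorem mu_mul (i j k l : n) : mu i j * mu k l = if j = k then mu i l else 0 := by
  split_ifs with h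
  · subst h
    rw [Matrix.single_mul_single_same, mul_one]
  · rw [Matrix.single_mul_single_of_ne _ _ _ _ h]

theorem mu_sq (i j : n) (h : i ≠ j) : mu i j * mu i j = 0 := by
  rw [mu_mul, if_neg (Ne.symm h)]

/-- a curve of conjugates of a matrix unit whose coefficients generate the trace zero matrices up
to a factor two -/
theorem exists_curve (o u : n) (hou : o ≠ u) : ∃ (m : ℕ) (W : ℕ → Matrix n n ℤ),
    IsCurve (mu o u) m W ∧ ∀ X : Matrix n n ℤ, X.trace = 0 →
      (2 : ℤ) • X ∈ AddSubgroup.closure (Cof m W) := by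
  obtain ⟨m1, W1, h1, h2, h3⟩ := curve_list (mu o u)
    ((Finset.univ.filter fun p : n => p ≠ o).toList.map fun p => mu p o) 1 (fun _ => mu o u)
    (isCurve_zero _) (by
      intro E hE
      rw [List.mem_map] at hE
      obtain ⟨p, hp, rfl⟩ := hE
      rw [Finset.mem_toList, Finset.mem_filter] at hp
      exact mu_sq _ _ hp.2)
  obtain ⟨m2, W2, h4, h5, h6⟩ := curve_list (mu o u)
    ((Finset.univ.filter fun q : n => q ≠ u).toList.map fun q => mu u q) m1 W1 h1 (by
      intro E hE
      rw [List.mem_map] at hE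
      obtain ⟨p, hp, rfl⟩ := hE
      rw [Finset.mem_toList, Finset.mem_filter] at hp
      exact mu_sq _ _ (Ne.symm hp.2))
  have c0 : mu o u ∈ Cof 1 (fun _ => mu o u) := ⟨0, one_pos, rfl⟩
  have c1 : ∀ p, p ≠ o → mu p o * mu o u - mu o u * mu p o ∈ Cof m1 W1 := by
    intro p hp
    refine h3 _ ?_ _ c0
    rw [List.mem_map]
    exact ⟨p, by rw [Finset.mem_toList, Finset.mem_filter]; exact ⟨Finset.mem_univ _, hp⟩, rfl⟩
  have c2 : ∀ q, q ≠ u → ∀ X ∈ Cof m1 W1, mu u q * X - X * mu u q ∈ Cof m2 W2 := by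
    intro q hq X hX
    refine h6 _ ?_ X hX
    rw [List.mem_map]
    exact ⟨q, by rw [Finset.mem_toList, Finset.mem_filter]; exact ⟨Finset.mem_univ _, hq⟩, rfl⟩
  refine ⟨m2, W2, h4, ?_⟩
  set Γ := AddSubgroup.closure (Cof m2 W2) with hΓ
  have g0 : mu o u ∈ Γ := AddSubgroup.subset_closure (h5 (h2 c0))
  have g1 : ∀ p, p ≠ o → p ≠ u → mu p u ∈ Cof m1 W1 := by
    intro p hp hpu
    have := c1 p hp
    rw [mu_mul, mu_mul, if_pos rfl, if_neg (Ne.symm hpu), sub_zero] at this
    exact this
  have g2 : mu u u - mu o o ∈ Cof m1 W1 := by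
    have := c1 u (Ne.symm hou)
    rw [mu_mul, mu_mul, if_pos rfl, if_pos rfl] at this
    exact this
  -- all off-diagonal units
  have off : ∀ p q, p ≠ q → (2 : ℤ) • mu p q ∈ Γ := by
    intro p q hpq
    by_cases hpo : p = o
    · subst hpo
      by_cases hqu : q = u
      · subst hqu
        exact Γ.zsmul_mem g0 2
      · have h7 := c2 q hqu _ (h2 c0)
        rw [mu_mul, mu_mul, if_neg (Ne.symm hpq), if_pos rfl, zero_sub] at h7
        have h8 : mu p q ∈ Γ := by
          have := Γ.neg_mem (AddSubgroup.subset_closure h7)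
          rwa [neg_neg] at this
        exact Γ.zsmul_mem h8 2
    · by_cases hpu : p = u
      · subst hpu
        have h7 := c2 q (Ne.symm hpq) _ g2
        rw [mul_sub, sub_mul, mu_mul, mu_mul, mu_mul, mu_mul, if_neg (Ne.symm hpq), if_pos rfl,
          if_neg hou] at h7
        by_cases hqo : q = o
        · rw [if_pos hqo, hqo] at h7
          have h8 : (2 : ℤ) • mu p o = -(0 - mu p o - (mu p o - 0)) := by
            rw [two_smul]; abel
          rw [hqo, h8]
          exact Γ.neg_mem (AddSubgroup.subset_closure h7)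
        · rw [if_neg hqo] at h7
          have h8 : mu p q ∈ Γ := by
            have := Γ.neg_mem (AddSubgroup.subset_closure h7)
            have h9 : -(0 - (0 : Matrix n n ℤ) - (mu p q - 0)) = mu p q := by abel
            rwa [h9] at this
          exact Γ.zsmul_mem h8 2
      · by_cases hqu : q = u
        · subst hqu
          exact Γ.zsmul_mem (AddSubgroup.subset_closure (h5 (g1 p hpo hpu))) 2
        · have h7 := c2 q hqu _ (g1 p hpo hpu)
          rw [mu_mul, mu_mul, if_neg (Ne.symm hpq), if_pos rfl, zero_sub] at h7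
          have h8 : mu p q ∈ Γ := by
            have := Γ.neg_mem (AddSubgroup.subset_closure h7)
            rwa [neg_neg] at this
          exact Γ.zsmul_mem h8 2
  have dia : ∀ p, (2 : ℤ) • (mu p p - mu u u) ∈ Γ := by
    intro p
    have h8 : mu p p - mu u u ∈ Γ := by
      by_cases hpu : p = u
      · rw [hpu, sub_self]
        exact Γ.zero_mem
      · by_cases hpo : p = o
        · rw [hpo]
          have := Γ.neg_mem (AddSubgroup.subset_closure (h5 g2))
          rwa [neg_sub] at this
        · have h7 := c2 p hpu _ (g1 p hpo hpu)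
          rw [mu_mul, mu_mul, if_pos rfl, if_pos rfl] at h7
          have := Γ.neg_mem (AddSubgroup.subset_closure h7)
          rwa [neg_sub] at this
    exact Γ.zsmul_mem h8 2
  intro X hX
  have hXs : X = ∑ p, ∑ q, X p q • (mu p q - if p = q then mu u u else 0) := by
    simp only [smul_sub, Finset.sum_sub_distrib]
    have e1 : ∑ p, ∑ q, X p q • mu p q = X := by
      conv_rhs => rw [Matrix.matrix_eq_sum_single X]
      refine Finset.sum_congr rfl fun p _ => Finset.sum_congr rfl fun q _ => ?_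
      rw [Matrix.smul_single, smul_eq_mul, mul_one]
    have e2 : ∑ p, ∑ q, X p q • (if p = q then mu u u else (0 : Matrix n n ℤ)) = 0 := by
      have e3 : ∀ p, ∑ q, X p q • (if p = q then mu u u else (0 : Matrix n n ℤ)) =
          X p p • mu u u := by
        intro p
        rw [Finset.sum_eq_single p]
        · rw [if_pos rfl]
        · intro q _ hq
          rw [if_neg (Ne.symm hq), smul_zero]
        · intro h0
          exact absurd (Finset.mem_univ _) h0
      rw [Finset.sum_congr rfl fun p _ => e3 p, ← Finset.sum_smul]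
      have e4 : ∑ p, X p p = 0 := hX
      rw [e4, zero_smul]
    rw [e1, e2, sub_zero]
  rw [hXs, Finset.smul_sum]
  refine Γ.sum_mem fun p _ => ?_
  rw [Finset.smul_sum]
  refine Γ.sum_mem fun q _ => ?_
  rw [smul_comm]
  refine Γ.zsmul_mem ?_ _
  by_cases hpq : p = q
  · subst hpq
    rw [if_pos rfl]
    exact dia p
  · rw [if_neg hpq, sub_zero]
    exact off p q hpq

end

end Pool.Agent.USC
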