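import Pool.Agent.USC.Kernel

set_option autoImplicit false

/-!
# MP_4086d8_co: quadratic exponential sums
-/

namespace Pool.Agent.USC

open Finset Filter Topology

noncomputable section

theorem shift_le (z : ℕ → ℂ) (hz : ∀ t, ‖z t‖ ≤ 1) (T h : ℕ) :
    ‖∑ t ∈ range T, z (t + h) - ∑ t ∈ range T, z t‖ ≤ 2 * h := by
  induction h with
  | zero => simp
  | succ h ih =>
    have h1 : ∑ t ∈ range T, z (t + (h + 1)) - ∑ t ∈ range T, z t =
        (∑ t ∈ range T, z (t + h) - ∑ t ∈ range T, z t) + (z (T + h) - z h) := by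
      have h2 : ∑ t ∈ range T, (z (t + 1 + h) - z (t + h)) = z (T + h) - z (0 + h) :=
        Finset.sum_range_sub (fun t => z (t + h)) T
      rw [Finset.sum_sub_distrib, zero_add] at h2
      have h3 : ∑ t ∈ range T, z (t + (h + 1)) = ∑ t ∈ range T, z (t + 1 + h) := by
        refine Finset.sum_congr rfl fun t _ => ?_
        congr 1
        ring
      rw [h3]
      linear_combination h2
    rw [h1]
    calc _ ≤ ‖∑ t ∈ range T, z (t + h) - ∑ t ∈ range T, z t‖ + ‖z (T + h) - z h‖ :=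
          norm_add_le _ _
      _ ≤ 2 * h + (‖z (T + h)‖ + ‖z h‖) := add_le_add ih (norm_sub_le _ _)
      _ ≤ 2 * h + (1 + 1) := by
          have := hz (T + h)
          have := hz h
          linarith
      _ = 2 * ((h + 1 : ℕ) : ℝ) := by push_cast; ring

/-- van der Corput's inequality -/
theorem vdc (z : ℕ → ℂ) (hz : ∀ t, ‖z t‖ ≤ 1) (T H : ℕ) (C : ℝ)
    (hC : ∑ h ∈ range H, ∑ h' ∈ range H,
      ‖∑ t ∈ range T, z (t + h) * (starRingEnd ℂ) (z (t + h'))‖ ≤ H * T + C) :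
    H * ‖∑ t ∈ range T, z t‖ ≤ Real.sqrt (T * (H * T + C)) + H ^ 2 := by
  set w : ℕ → ℂ := fun t => ∑ h ∈ range H, z (t + h) with hw
  have h1 : ‖(H : ℂ) * ∑ t ∈ range T, z t - ∑ t ∈ range T, w t‖ ≤ (H : ℝ) ^ 2 := by
    have h2 : (H : ℂ) * ∑ t ∈ range T, z t - ∑ t ∈ range T, w t =
        - ∑ h ∈ range H, (∑ t ∈ range T, z (t + h) - ∑ t ∈ range T, z t) := by
      rw [Finset.sum_sub_distrib, Finset.sum_const, Finset.card_range, nsmul_eq_mul, neg_sub,
        hw, Finset.sum_comm]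
    rw [h2, norm_neg]
    calc _ ≤ ∑ h ∈ range H, ‖∑ t ∈ range T, z (t + h) - ∑ t ∈ range T, z t‖ := norm_sum_le _ _
      _ ≤ ∑ h ∈ range H, (2 * h : ℝ) := Finset.sum_le_sum fun h _ => shift_le z hz T h
      _ ≤ (H : ℝ) ^ 2 := by
          rw [← Finset.mul_sum]
          have h3 : ∀ H : ℕ, 2 * ∑ h ∈ range H, (h : ℝ) ≤ (H : ℝ) ^ 2 := by
            intro H
            induction H with
            | zero => simp
            | succ H ih =>
              rw [Finset.sum_range_succ]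
              push_cast
              nlinarith
          exact h3 H
  have h2 : ‖∑ t ∈ range T, w t‖ ≤ Real.sqrt (T * (H * T + C)) := by
    apply Real.le_sqrt_of_sq_le
    have h3 : ‖∑ t ∈ range T, w t‖ ^ 2 ≤ T * ∑ t ∈ range T, ‖w t‖ ^ 2 := by
      calc ‖∑ t ∈ range T, w t‖ ^ 2 ≤ (∑ t ∈ range T, ‖w t‖) ^ 2 :=
            pow_le_pow_left₀ (norm_nonneg _) (norm_sum_le _ _) 2
        _ ≤ ((range T).card : ℝ) * ∑ t ∈ range T, ‖w t‖ ^ 2 := sq_sum_le_card_mul_sum_sq
        _ = _ := by rw [Finset.card_range]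
    have h4 : ∑ t ∈ range T, ‖w t‖ ^ 2 ≤ H * T + C := by
      have h5 : ((∑ t ∈ range T, ‖w t‖ ^ 2 : ℝ) : ℂ) = ∑ h ∈ range H, ∑ h' ∈ range H,
          ∑ t ∈ range T, z (t + h) * (starRingEnd ℂ) (z (t + h')) := by
        push_cast
        have h6 : ∀ t, ((‖w t‖ : ℂ)) ^ 2 = ∑ h ∈ range H, ∑ h' ∈ range H,
            z (t + h) * (starRingEnd ℂ) (z (t + h')) := by
          intro t
          have h7 : ((‖w t‖ : ℂ)) ^ 2 = w t * (starRingEnd ℂ) (w t) := by
            rw [Complex.mul_conj, Complex.normSq_eq_norm_sq]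
            push_cast
            rfl
          rw [h7, hw, map_sum, Finset.sum_mul_sum]
        rw [Finset.sum_congr rfl fun t _ => h6 t, Finset.sum_comm]
        refine Finset.sum_congr rfl fun h _ => ?_
        rw [Finset.sum_comm]
      have h8 : ∑ t ∈ range T, ‖w t‖ ^ 2 = ‖((∑ t ∈ range T, ‖w t‖ ^ 2 : ℝ) : ℂ)‖ := by
        rw [Complex.norm_real, Real.norm_of_nonneg (Finset.sum_nonneg fun t _ => by positivity)]
      rw [h8, h5]
      refine le_trans (norm_sum_le _ _) (le_trans ?_ hC)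
      exact Finset.sum_le_sum fun h _ => norm_sum_le _ _
    exact h3.trans (mul_le_mul_of_nonneg_left h4 (Nat.cast_nonneg T))
  have h9 : (H : ℝ) * ‖∑ t ∈ range T, z t‖ = ‖(H : ℂ) * ∑ t ∈ range T, z t‖ := by
    rw [norm_mul, Complex.norm_natCast]
  rw [h9]
  calc ‖(H : ℂ) * ∑ t ∈ range T, z t‖
      = ‖((H : ℂ) * ∑ t ∈ range T, z t - ∑ t ∈ range T, w t) + ∑ t ∈ range T, w t‖ := by
        rw [sub_add_cancel]
    _ ≤ ‖(H : ℂ) * ∑ t ∈ range T, z t - ∑ t ∈ range T, w t‖ + ‖∑ t ∈ range T, w t‖ :=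
        norm_add_le _ _
    _ ≤ (H : ℝ) ^ 2 + Real.sqrt (T * (H * T + C)) := add_le_add h1 h2
    _ = _ := add_comm _ _

/-- the quadratic phase -/
def qz (a b c : UnitAddCircle) (t : ℕ) : ℂ :=
  (AddCircle.toCircle (((t : ℤ) ^ 2) • a + (t : ℤ) • b + c) : ℂ)

theorem norm_qz (a b c : UnitAddCircle) (t : ℕ) : ‖qz a b c t‖ = 1 := Circle.norm_coe _

theorem conj_toCircle (x : UnitAddCircle) :
    (starRingEnd ℂ) (AddCircle.toCircle x : ℂ) = (AddCircle.toCircle (-x) : ℂ) := by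
  rw [AddCircle.toCircle_neg, Circle.coe_inv_eq_conj]

theorem qz_mul (a b c : UnitAddCircle) (t h h' : ℕ) :
    qz a b c (t + h) * (starRingEnd ℂ) (qz a b c (t + h')) =
      (AddCircle.toCircle (((h : ℤ) ^ 2 - (h' : ℤ) ^ 2) • a + ((h : ℤ) - h') • b) : ℂ) *
        (AddCircle.toCircle ((2 * ((h : ℤ) - h')) • a) : ℂ) ^ t := by
  unfold qz
  rw [conj_toCircle, ← Circle.coe_mul, ← AddCircle.toCircle_add, ← toCircle_nsmul,
    ← Circle.coe_mul, ← AddCircle.toCircle_add]
  congr 2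
  push_cast
  module

/-- quadratic Weyl sums -/
theorem weyl (H : ℕ) (hH : 0 < H) (a b c : UnitAddCircle)
    (ha : ∀ h : ℕ, 0 < h → h < H → (2 * (h : ℤ)) • a ≠ 0) (δ : ℝ) (hδ : 0 < δ) :
    ∀ᶠ T : ℕ in atTop, ‖∑ t ∈ range T, qz a b c t‖ ≤ (1 / Real.sqrt H + δ) * T := by
  have hH' : (0 : ℝ) < H := by exact_mod_cast hH
  set u : ℕ → ℕ → ℂ := fun h h' => (AddCircle.toCircle ((2 * ((h : ℤ) - h')) • a) : ℂ) with hu
  have hu1 : ∀ h ∈ range H, ∀ h' ∈ range H, h ≠ h' → u h h' ≠ 1 := by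
    intro h hh h' hh' hne
    rw [Finset.mem_range] at hh hh'
    apply toCircle_ne_one
    rcases lt_or_gt_of_ne hne with hlt | hlt
    · intro h0
      apply ha (h' - h) (by omega) (by omega)
      have h1 : (2 * (((h' - h : ℕ) : ℤ))) = -(2 * ((h : ℤ) - h')) := by
        rw [Nat.cast_sub hlt.le]
        ring
      rw [h1, neg_smul, h0, neg_zero]
    · intro h0
      apply ha (h - h') (by omega) (by omega)
      have h1 : (2 * (((h - h' : ℕ) : ℤ))) = (2 * ((h : ℤ) - h')) := by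
        rw [Nat.cast_sub hlt.le]
      rw [h1, h0]
  set C : ℝ := ∑ h ∈ range H, ∑ h' ∈ range H, (if h = h' then 0 else 2 / ‖u h h' - 1‖) with hCdef
  have hCb : ∀ T : ℕ, ∑ h ∈ range H, ∑ h' ∈ range H,
      ‖∑ t ∈ range T, qz a b c (t + h) * (starRingEnd ℂ) (qz a b c (t + h'))‖ ≤ H * T + C := by
    intro T
    have h1 : ∀ h ∈ range H, ∀ h' ∈ range H,
        ‖∑ t ∈ range T, qz a b c (t + h) * (starRingEnd ℂ) (qz a b c (t + h'))‖ ≤
          (if h = h' then (T : ℝ) else 0) + (if h = h' then 0 else 2 / ‖u h h' - 1‖) := by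
      intro h hh h' hh'
      by_cases hne : h = h'
      · rw [if_pos hne, if_pos hne, add_zero]
        calc _ ≤ ∑ t ∈ range T, ‖qz a b c (t + h) * (starRingEnd ℂ) (qz a b c (t + h'))‖ :=
              norm_sum_le _ _
          _ = T := by
              have : ∀ t, ‖qz a b c (t + h) * (starRingEnd ℂ) (qz a b c (t + h'))‖ = 1 := by
                intro t
                rw [norm_mul, norm_qz, RCLike.norm_conj, norm_qz, mul_one]
              rw [Finset.sum_congr rfl fun t _ => this t]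
              simp
      · rw [if_neg hne, if_neg hne, zero_add]
        simp_rw [qz_mul]
        rw [← Finset.mul_sum, norm_mul, Circle.norm_coe, one_mul]
        exact geom_bound _ (Circle.norm_coe _) (hu1 h hh h' hh' hne) T
    calc _ ≤ ∑ h ∈ range H, ∑ h' ∈ range H,
          ((if h = h' then (T : ℝ) else 0) + (if h = h' then 0 else 2 / ‖u h h' - 1‖)) :=
          Finset.sum_le_sum fun h hh => Finset.sum_le_sum fun h' hh' => h1 h hh h' hh'
      _ = H * T + C := by
          simp only [Finset.sum_add_distrib]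
          rw [hCdef]
          congr 1
          have h2 : ∀ h ∈ range H, ∑ h' ∈ range H, (if h = h' then (T : ℝ) else 0) = T := by
            intro h hh
            rw [Finset.sum_ite_eq, if_pos hh]
          rw [Finset.sum_congr rfl h2, Finset.sum_const, Finset.card_range, nsmul_eq_mul]
  have hlim : Tendsto (fun T : ℕ => Real.sqrt (1 / H + C / H ^ 2 / T) + H / T) atTop
      (𝓝 (Real.sqrt (1 / H + 0) + 0)) := by
    refine Tendsto.add ?_ (tendsto_const_div_atTop_nhds_zero_nat (H : ℝ))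
    exact (tendsto_const_nhds.add (tendsto_const_div_atTop_nhds_zero_nat _)).sqrt
  have h3 : Real.sqrt (1 / (H : ℝ) + 0) + 0 < 1 / Real.sqrt H + δ := by
    rw [add_zero, add_zero, Real.sqrt_div zero_le_one, Real.sqrt_one]
    linarith
  filter_upwards [hlim.eventually_lt_const h3, eventually_gt_atTop 0] with T hT hT0
  have hT0' : (0 : ℝ) < T := by exact_mod_cast hT0
  have h4 := vdc (qz a b c) (fun t => (norm_qz a b c t).le) T H C (hCb T)
  have h5 : Real.sqrt (T * (H * T + C)) = H * T * Real.sqrt (1 / H + C / H ^ 2 / T) := by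
    have h6 : (T : ℝ) * (H * T + C) = (H * T) ^ 2 * (1 / H + C / H ^ 2 / T) := by
      field_simp
    rw [h6, Real.sqrt_mul (by positivity), Real.sqrt_sq (by positivity)]
  rw [h5] at h4
  have h7 : (H : ℝ) * ‖∑ t ∈ range T, qz a b c t‖ ≤ H * ((1 / Real.sqrt H + δ) * T) := by
    calc _ ≤ H * T * Real.sqrt (1 / H + C / H ^ 2 / T) + H ^ 2 := h4
      _ = H * ((Real.sqrt (1 / H + C / H ^ 2 / T) + H / T) * T) := by
          field_simp
      _ ≤ _ := mul_le_mul_of_nonneg_left (mul_le_mul_of_nonneg_right hT.le hT0'.le) hH'.le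
  exact le_of_mul_le_mul_left h7 hH'

end

end Pool.Agent.USC
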