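import Pool.Agent.USC.Scale
import Pool.Agent.USC.Weyl
import Pool.Agent.USC.Curve

set_option autoImplicit false

/-!
# MP_4086d8_co: families of matrices with a given characteristic polynomial
-/

namespace Pool.Agent.USC

open Finset Filter Topology

noncomputable section

variable {n : Type} [Fintype n] [DecidableEq n] (P : n × n → Prop) [DecidablePred P]

/-- the coordinates of a matrix at the places `p` with `P p` -/
def crd (X : Matrix n n ℤ) : {p : n × n // P p} → ℤ := fun j => X j.1.1 j.1.2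

/-- the pairing with `θ` as a homomorphism -/
def ph (θ : TT {p : n × n // P p}) : Matrix n n ℤ →+ UnitAddCircle where
  toFun X := pair (crd P X) θ
  map_zero' := pair_zero θ
  map_add' X Y := pair_add (crd P X) (crd P Y) θ

omit [DecidableEq n] in
theorem ph_apply (θ : TT {p : n × n // P p}) (X : Matrix n n ℤ) :
    ph P θ X = pair (crd P X) θ := rfl

theorem kill (e : n) (hP : ∀ p, P p ↔ p ≠ (e, e)) (θ : TT {p : n × n // P p}) (c : ℤ)
    (h : ∀ X : Matrix n n ℤ, X.trace = 0 → c • ph P θ X = 0) : c • θ = 0 := by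
  funext j
  rw [Pi.smul_apply, Pi.zero_apply]
  obtain ⟨⟨p, q⟩, hj⟩ := j
  have key : ∀ X : Matrix n n ℤ, crd P X = Pi.single ⟨(p, q), hj⟩ 1 →
      ph P θ X = θ ⟨(p, q), hj⟩ := by
    intro X hX
    rw [ph_apply, hX]
    unfold pair
    rw [Finset.sum_eq_single (⟨(p, q), hj⟩ : {p : n × n // P p})]
    · rw [Pi.single_eq_same, one_zsmul]
    · intro i _ hi
      rw [Pi.single_eq_of_ne hi, zero_zsmul]
    · intro h0
      exact absurd (Finset.mem_univ _) h0
  by_cases hpq : p = q
  · subst hpq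
    have hpe : p ≠ e := by
      intro h0
      exact (hP _).1 hj (by rw [h0])
    rw [← key (mu p p - mu e e)]
    · apply h
      rw [Matrix.trace_sub]
      simp [mu]
    · funext i
      obtain ⟨⟨a, b⟩, hi⟩ := i
      have hne : ¬ (e = a ∧ e = b) := by
        rintro ⟨rfl, rfl⟩
        exact (hP _).1 hi rfl
      unfold crd
      rw [Matrix.sub_apply]
      simp only [mu, Matrix.single_apply]
      rw [if_neg hne, sub_zero]
      by_cases hab : p = a ∧ p = b
      · obtain ⟨rfl, rfl⟩ := hab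
        simp
      · rw [if_neg hab, Pi.single_eq_of_ne]
        intro h0
        apply hab
        have h1 := congrArg Subtype.val h0
        simp only [Prod.mk.injEq] at h1
        exact ⟨h1.1.symm, h1.2.symm⟩
  · rw [← key (mu p q)]
    · apply h
      simp [mu, Matrix.trace_single_eq_of_ne _ _ _ hpq]
    · funext i
      obtain ⟨⟨a, b⟩, hi⟩ := i
      unfold crd
      simp only [mu, Matrix.single_apply]
      by_cases hab : p = a ∧ q = b
      · obtain ⟨rfl, rfl⟩ := hab
        simp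
      · rw [if_neg hab, Pi.single_eq_of_ne]
        intro h0
        apply hab
        have h1 := congrArg Subtype.val h0
        simp only [Prod.mk.injEq] at h1
        exact ⟨h1.1.symm, h1.2.symm⟩

theorem mu_C_mu (o u : n) (C : Matrix n n ℤ) : mu o u * C * mu o u = C u o • mu o u := by
  ext i j
  simp only [mu, Matrix.smul_apply, Matrix.single_apply, smul_eq_mul]
  by_cases h : o = i ∧ u = j
  · obtain ⟨rfl, rfl⟩ := h
    simp
  · rw [if_neg h, mul_zero]
    by_cases hi : o = i
    · have hj : u ≠ j := fun h0 => h ⟨hi, h0⟩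
      rw [Matrix.mul_single_apply_of_ne (hbj := Ne.symm hj)]
    · rw [mul_assoc, Matrix.single_mul_apply_of_ne (h := Ne.symm hi)]

/-- the family -/
def fam (o u : n) (G Gi : ℤ → Matrix n n ℤ) (C : Matrix n n ℤ) (s t : ℕ) : Matrix n n ℤ :=
  G s * ((1 + (t : ℤ) • mu o u) * C * (1 - (t : ℤ) • mu o u)) * Gi s

theorem fam_charpoly (o u : n) (hou : o ≠ u) (G Gi : ℤ → Matrix n n ℤ)
    (h2 : ∀ s, Gi s * G s = 1) (C : Matrix n n ℤ) (s t : ℕ) :
    (fam o u G Gi C s t).charpoly = C.charpoly := by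
  have e2 := unip_mul' (mu o u) (mu_sq o u hou) (t : ℤ)
  have h3 : fam o u G Gi C s t =
      (G s * (1 + (t : ℤ) • mu o u)) * (C * ((1 - (t : ℤ) • mu o u) * Gi s)) := by
    unfold fam
    simp only [mul_assoc]
  rw [h3, Matrix.charpoly_mul_comm]
  congr 1
  calc C * ((1 - (t : ℤ) • mu o u) * Gi s) * (G s * (1 + (t : ℤ) • mu o u))
      = C * ((1 - (t : ℤ) • mu o u) * (Gi s * G s) * (1 + (t : ℤ) • mu o u)) := by
        simp only [mul_assoc]
    _ = C := by rw [h2, mul_one, e2, mul_one]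

theorem fam_ee (o u : n) (G Gi : ℤ → Matrix n n ℤ) (C : Matrix n n ℤ) (hC : C u o = 1)
    (θ : TT {p : n × n // P p}) (s t : ℕ) :
    ee (crd P (fam o u G Gi C s t)) θ =
      qz (-(ph P θ (G s * mu o u * Gi s)))
        (ph P θ (G s * (mu o u * C - C * mu o u) * Gi s)) (ph P θ (G s * C * Gi s)) t := by
  have h1 : fam o u G Gi C s t = ((t : ℤ) ^ 2) • (-(G s * mu o u * Gi s)) +
      (t : ℤ) • (G s * (mu o u * C - C * mu o u) * Gi s) + G s * C * Gi s := by
    unfold fam
    rw [conj_formula, mu_C_mu, hC, one_smul]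
    simp only [mul_add, add_mul, mul_smul_comm, smul_mul_assoc, mul_neg, neg_mul, smul_neg]
    abel
  unfold ee qz
  rw [← ph_apply, h1, map_add, map_add, map_zsmul, map_zsmul, map_neg]

/-- the key theorem on families -/
theorem exists_family (o u e : n) (hou : o ≠ u) (hP : ∀ p, P p ↔ p ≠ (e, e)) (ε : ℝ)
    (hε : 0 < ε) : ∃ (M : ℤ) (R : ℕ), M ≠ 0 ∧ 0 < R ∧ ∀ C : Matrix n n ℤ, C u o = 1 →
      ∃ B : ℕ → ℕ → Matrix n n ℤ, (∀ s t, (B s t).charpoly = C.charpoly) ∧
        ∀ θ : TT {p : n × n // P p}, M • θ ≠ 0 →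
          ∀ᶠ T : ℕ in atTop, ‖av R (fun s t => crd P (B s t)) T θ‖ ≤ ε * (R * T) := by
  obtain ⟨D, W, ⟨G, Gi, -, hG2, hG3⟩, hW⟩ := exists_curve o u hou
  -- the constants
  obtain ⟨H, hH⟩ : ∃ H : ℕ, 9 / ε ^ 2 < H := exists_nat_gt _
  have hHpos : 0 < H := by
    have h1 : (0 : ℝ) < 9 / ε ^ 2 := by positivity
    exact_mod_cast h1.trans hH
  have hHs : 1 / Real.sqrt H ≤ ε / 3 := by
    have h1 : (3 / ε) ≤ Real.sqrt H := by
      apply Real.le_sqrt_of_sq_le
      have h2 : (3 / ε) ^ 2 = 9 / ε ^ 2 := by rw [div_pow]; norm_num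
      rw [h2]
      exact hH.le
    rw [div_le_iff₀ (by positivity)]
    calc (1 : ℝ) = ε / 3 * (3 / ε) := by field_simp
      _ ≤ ε / 3 * Real.sqrt H := mul_le_mul_of_nonneg_left h1 (by positivity)
  obtain ⟨R, hR⟩ : ∃ R : ℕ, 3 * D / ε < R := exists_nat_gt _
  have hRpos : 0 < R := by
    have h1 : (0 : ℝ) ≤ 3 * D / ε := by positivity
    exact_mod_cast h1.trans_lt hR
  have hDR : (D : ℝ) ≤ ε / 3 * R := by
    rw [div_lt_iff₀ hε] at hR
    linarith
  set mm : ℤ := 2 * (H.factorial : ℤ) with hmm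
  have hmm0 : mm ≠ 0 := by
    rw [hmm]
    have := H.factorial_pos
    positivity
  refine ⟨2 * (KK R D * mm), R, mul_ne_zero two_ne_zero (mul_ne_zero (KK_ne R D) hmm0), hRpos,
    fun C hC => ?_⟩
  refine ⟨fam o u G Gi C, fun s t => fam_charpoly o u hou G Gi hG2 C s t, fun θ hθ => ?_⟩
  set a : ℕ → UnitAddCircle := fun s => -(ph P θ (G s * mu o u * Gi s)) with ha
  classical
  set Z : Finset ℕ := (range R).filter fun s => mm • a s = 0 with hZ
  have hZc : Z.card < D := by
    by_contra hcon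
    push Not at hcon
    apply hθ
    apply kill P e hP θ
    intro X hX
    have h1 : ∀ l, l < D → (KK R D * mm) • ph P θ (W l) = 0 := by
      intro l hl
      refine many_zeros R D (fun l => ph P θ (W l)) mm ⟨Z, Finset.filter_subset _ _, hcon, ?_⟩ l hl
      intro s hs
      have h2 : mm • a s = 0 := (Finset.mem_filter.1 hs).2
      have h3 : pol D (fun l => ph P θ (W l)) (s : ℤ) = ph P θ (G s * mu o u * Gi s) := by
        rw [hG3 (s : ℤ)]
        unfold pol
        rw [map_sum]
        exact Finset.sum_congr rfl fun l _ => (map_zsmul _ _ _).symm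
      rw [h3]
      rw [ha] at h2
      simp only [smul_neg, neg_eq_zero] at h2
      exact h2
    have h4 : ∀ Y ∈ AddSubgroup.closure (Cof D W), (KK R D * mm) • ph P θ Y = 0 := by
      intro Y hY
      induction hY using AddSubgroup.closure_induction with
      | mem Y hY =>
        obtain ⟨l, hl, rfl⟩ := hY
        exact h1 l hl
      | zero => rw [map_zero, smul_zero]
      | add Y Y' _ _ h5 h6 => rw [map_add, smul_add, h5, h6, add_zero]
      | neg Y _ h5 => rw [map_neg, smul_neg, h5, neg_zero]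
    have h7 := h4 _ (hW X hX)
    rw [map_zsmul, smul_smul, mul_comm (KK R D * mm) 2] at h7
    exact h7
  -- the good parameters
  have hgood : ∀ s ∈ (range R).filter (fun s => ¬ mm • a s = 0), ∀ᶠ T : ℕ in atTop,
      ‖∑ t ∈ range T, ee (crd P (fam o u G Gi C s t)) θ‖ ≤ (ε / 3 + ε / 3) * T := by
    intro s hs
    have h1 : mm • a s ≠ 0 := (Finset.mem_filter.1 hs).2
    have h2 : ∀ h : ℕ, 0 < h → h < H → (2 * (h : ℤ)) • a s ≠ 0 := by
      intro h hh0 hhH h3
      apply h1
      obtain ⟨c, hc⟩ := Nat.dvd_factorial hh0 hhH.le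
      have h4 : mm = (c : ℤ) * (2 * (h : ℤ)) := by
        rw [hmm, hc]
        push_cast
        ring
      rw [h4, mul_smul, h3, smul_zero]
    have h5 := weyl H hHpos (a s) (ph P θ (G s * (mu o u * C - C * mu o u) * Gi s))
      (ph P θ (G s * C * Gi s)) h2 (ε / 3) (by positivity)
    filter_upwards [h5] with T hT
    simp_rw [fam_ee P o u G Gi C hC θ s]
    refine hT.trans ?_
    exact mul_le_mul_of_nonneg_right (by linarith) (Nat.cast_nonneg T)
  have hall := (Finset.eventually_all _).2 hgood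
  filter_upwards [hall] with T hT
  unfold av
  have h1 : ∑ s ∈ range R, ∑ t ∈ range T, ee (crd P (fam o u G Gi C s t)) θ =
      ∑ s ∈ Z, ∑ t ∈ range T, ee (crd P (fam o u G Gi C s t)) θ +
      ∑ s ∈ (range R).filter (fun s => ¬ mm • a s = 0),
        ∑ t ∈ range T, ee (crd P (fam o u G Gi C s t)) θ :=
    (Finset.sum_filter_add_sum_filter_not _ _ _).symm
  rw [h1]
  have h2 : ‖∑ s ∈ Z, ∑ t ∈ range T, ee (crd P (fam o u G Gi C s t)) θ‖ ≤ D * T := by
    calc _ ≤ ∑ s ∈ Z, ‖∑ t ∈ range T, ee (crd P (fam o u G Gi C s t)) θ‖ := norm_sum_le _ _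
      _ ≤ ∑ s ∈ Z, (T : ℝ) := by
          refine Finset.sum_le_sum fun s _ => ?_
          calc _ ≤ ∑ t ∈ range T, ‖ee (crd P (fam o u G Gi C s t)) θ‖ := norm_sum_le _ _
            _ = T := by
                rw [Finset.sum_congr rfl fun t _ => norm_ee _ _]
                simp
      _ = Z.card * T := by rw [Finset.sum_const, nsmul_eq_mul]
      _ ≤ D * T := mul_le_mul_of_nonneg_right (by exact_mod_cast hZc.le) (Nat.cast_nonneg T)
  have h3 : ‖∑ s ∈ (range R).filter (fun s => ¬ mm • a s = 0),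
        ∑ t ∈ range T, ee (crd P (fam o u G Gi C s t)) θ‖ ≤ R * ((ε / 3 + ε / 3) * T) := by
    calc _ ≤ ∑ s ∈ (range R).filter (fun s => ¬ mm • a s = 0),
          ‖∑ t ∈ range T, ee (crd P (fam o u G Gi C s t)) θ‖ := norm_sum_le _ _
      _ ≤ ∑ s ∈ (range R).filter (fun s => ¬ mm • a s = 0), ((ε / 3 + ε / 3) * T : ℝ) :=
          Finset.sum_le_sum fun s hs => hT s hs
      _ = ((range R).filter (fun s => ¬ mm • a s = 0)).card * ((ε / 3 + ε / 3) * T) := by
          rw [Finset.sum_const, nsmul_eq_mul]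
      _ ≤ R * ((ε / 3 + ε / 3) * T) := by
          apply mul_le_mul_of_nonneg_right _ (by positivity)
          have := Finset.card_filter_le (range R) (fun s => ¬ mm • a s = 0)
          rw [Finset.card_range] at this
          exact_mod_cast this
  calc _ ≤ _ := norm_add_le _ _
    _ ≤ D * T + R * ((ε / 3 + ε / 3) * T) := add_le_add h2 h3
    _ ≤ (ε / 3 * R) * T + R * ((ε / 3 + ε / 3) * T) := by
        have := mul_le_mul_of_nonneg_right hDR (Nat.cast_nonneg (α := ℝ) T)
        linarith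
    _ = ε * (R * T) := by ring

end

end Pool.Agent.USC
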