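import Pool.Agent.USC.Sigma

set_option autoImplicit false

/-!
# MP_4086d8_co: the kernels concentrating at zero
-/

namespace Pool.Agent.USC

open MeasureTheory Finset Filter Topology

noncomputable section

theorem toCircle_sum {ι : Type*} (s : Finset ι) (f : ι → UnitAddCircle) :
    AddCircle.toCircle (∑ i ∈ s, f i) = ∏ i ∈ s, AddCircle.toCircle (f i) := by
  classical

  induction s using Finset.induction_on with
  | empty => rw [Finset.sum_empty, Finset.prod_empty, AddCircle.toCircle_zero]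
  | insert a s ha ih =>
    rw [Finset.sum_insert ha, Finset.prod_insert ha, AddCircle.toCircle_add, ih]

theorem toCircle_nsmul (x : UnitAddCircle) (n : ℕ) :
    (AddCircle.toCircle ((n : ℤ) • x) : ℂ) = (AddCircle.toCircle x : ℂ) ^ n := by
  induction n with
  | zero => simp
  | succ n ih =>
    rw [Nat.cast_succ, add_zsmul, one_zsmul, AddCircle.toCircle_add, Circle.coe_mul, ih, pow_succ]

theorem toCircle_ne_one {x : UnitAddCircle} (hx : x ≠ 0) : (AddCircle.toCircle x : ℂ) ≠ 1 := by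
  intro h
  apply hx
  have h1 : AddCircle.toCircle x = AddCircle.toCircle (0 : UnitAddCircle) := by
    rw [AddCircle.toCircle_zero]
    ext1
    rw [h, Circle.coe_one]
  exact AddCircle.injective_toCircle one_ne_zero h1

/-- bound for a geometric sum -/
theorem geom_bound (w : ℂ) (hw : ‖w‖ = 1) (h1 : w ≠ 1) (L : ℕ) :
    ‖∑ m ∈ range L, w ^ m‖ ≤ 2 / ‖w - 1‖ := by
  rw [geom_sum_eq h1, norm_div]
  apply div_le_div_of_nonneg_right _ (norm_nonneg _)
  calc ‖w ^ L - 1‖ ≤ ‖w ^ L‖ + ‖(1 : ℂ)‖ := norm_sub_le _ _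
    _ = 2 := by rw [norm_pow, hw, one_pow, norm_one]; norm_num

theorem sum_pow_norm_le (w : ℂ) (hw : ‖w‖ = 1) (L : ℕ) : ‖∑ m ∈ range L, w ^ m‖ ≤ L := by
  calc ‖∑ m ∈ range L, w ^ m‖ ≤ ∑ m ∈ range L, ‖w ^ m‖ := norm_sum_le _ _
    _ = L := by simp [norm_pow, hw]

variable {J : Type} [Fintype J] [DecidableEq J]

/-- the points of the cube -/
def cub (L : ℕ) (v : J → Fin L) : J → ℤ := fun j => ((v j : ℕ) : ℤ)

/-- the kernel -/
def ker (L : ℕ) (θ : TT J) : ℝ :=
  ‖∑ v : J → Fin L, ee (cub L v) θ‖ ^ 2 / ((L : ℝ) ^ (Fintype.card J)) ^ 2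

omit [DecidableEq J] in
theorem ee_eq_prod (v : J → ℤ) (θ : TT J) :
    ee v θ = ∏ j, (AddCircle.toCircle (v j • θ j) : ℂ) := by
  unfold ee pair
  rw [toCircle_sum]
  exact map_prod Circle.coeHom _ _

theorem sum_cube (L : ℕ) (θ : TT J) : ∑ v : J → Fin L, ee (cub L v) θ =
    ∏ j, ∑ m ∈ range L, (AddCircle.toCircle (θ j) : ℂ) ^ m := by

  have h1 : ∀ j, ∑ m ∈ range L, (AddCircle.toCircle (θ j) : ℂ) ^ m =
      ∑ m : Fin L, (AddCircle.toCircle (θ j) : ℂ) ^ (m : ℕ) := fun j =>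
    (Fin.sum_univ_eq_sum_range _ L).symm
  simp_rw [h1]
  rw [Finset.prod_univ_sum, Fintype.piFinset_univ]
  refine Finset.sum_congr rfl fun v _ => ?_
  rw [ee_eq_prod]
  refine Finset.prod_congr rfl fun j _ => ?_
  unfold cub
  rw [toCircle_nsmul]

theorem continuous_ker (L : ℕ) : Continuous (ker L : TT J → ℝ) := by
  unfold ker
  have h1 : Continuous (fun θ : TT J => ∑ v : J → Fin L, ee (cub L v) θ) :=
    continuous_finsetSum _ fun x _ => continuous_ee _
  exact (h1.norm.pow 2).div_const _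

theorem ker_nonneg (L : ℕ) (θ : TT J) : 0 ≤ ker L θ := by
  unfold ker
  positivity

theorem ker_eq_prod (L : ℕ) (θ : TT J) : ker L θ =
    ∏ j, (‖∑ m ∈ range L, (AddCircle.toCircle (θ j) : ℂ) ^ m‖ / L) ^ 2 := by
  unfold ker
  rw [sum_cube, norm_prod, Finset.prod_pow, Finset.prod_div_distrib, div_pow]
  congr 3
  rw [Finset.prod_const, Finset.card_univ]

theorem factor_le (x : UnitAddCircle) (L : ℕ) :
    ‖∑ m ∈ range L, (AddCircle.toCircle x : ℂ) ^ m‖ / L ≤ 1 := by
  rcases Nat.eq_zero_or_pos L with rfl | hL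
  · simp
  · rw [div_le_one (by exact_mod_cast hL)]
    exact sum_pow_norm_le _ (Circle.norm_coe _) L

theorem ker_le_one (L : ℕ) (θ : TT J) : ker L θ ≤ 1 := by
  rw [ker_eq_prod]
  refine Finset.prod_le_one (fun j _ => by positivity) fun j _ => ?_
  exact pow_le_one₀ (by positivity) (factor_le _ _)

/-- the kernels converge to the indicator function of `{0}` -/
theorem tendsto_ker (θ : TT J) :
    Tendsto (fun L => ker L θ) atTop (𝓝 (Set.indicator {0} (fun _ => (1 : ℝ)) θ)) := by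

  by_cases h : θ = 0
  · subst h
    rw [Set.indicator_of_mem (Set.mem_singleton _)]
    refine tendsto_const_nhds.congr' ?_
    filter_upwards [eventually_gt_atTop 0] with L hL
    rw [ker_eq_prod]
    symm
    refine Finset.prod_eq_one fun j _ => ?_
    rw [Pi.zero_apply, AddCircle.toCircle_zero, Circle.coe_one]
    simp only [one_pow, Finset.sum_const, Finset.card_range, nsmul_eq_mul, mul_one]
    rw [Complex.norm_natCast, div_self (by exact_mod_cast hL.ne'), one_pow]
  · rw [Set.indicator_of_notMem (by simpa using h)]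
    obtain ⟨j, hj⟩ : ∃ j, θ j ≠ 0 := by
      by_contra h0
      push Not at h0
      exact h (funext h0)
    set w : ℂ := (AddCircle.toCircle (θ j) : ℂ) with hw
    have hw1 : w ≠ 1 := toCircle_ne_one hj
    have hwn : ‖w‖ = 1 := Circle.norm_coe _
    have hlim : Tendsto (fun L : ℕ => (2 / ‖w - 1‖ / L) ^ 2) atTop (𝓝 0) := by
      have := (tendsto_const_div_atTop_nhds_zero_nat (2 / ‖w - 1‖)).pow 2
      simpa using this
    refine squeeze_zero (fun L => ker_nonneg L θ) (fun L => ?_) hlim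
    rw [ker_eq_prod, ← Finset.mul_prod_erase _ _ (Finset.mem_univ j)]
    have h2 : ∏ i ∈ univ.erase j,
        (‖∑ m ∈ range L, (AddCircle.toCircle (θ i) : ℂ) ^ m‖ / L) ^ 2 ≤ 1 :=
      Finset.prod_le_one (fun i _ => by positivity) fun i _ =>
        pow_le_one₀ (by positivity) (factor_le _ _)
    have h3 : (‖∑ m ∈ range L, w ^ m‖ / L) ^ 2 ≤ (2 / ‖w - 1‖ / L) ^ 2 := by
      apply pow_le_pow_left₀ (by positivity)
      exact div_le_div_of_nonneg_right (geom_bound w hwn hw1 L) (Nat.cast_nonneg L)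
    calc _ ≤ (‖∑ m ∈ range L, w ^ m‖ / L) ^ 2 * 1 :=
          mul_le_mul_of_nonneg_left h2 (by positivity)
      _ = (‖∑ m ∈ range L, w ^ m‖ / L) ^ 2 := mul_one _
      _ ≤ _ := h3

/-- lower bound of the integral of the kernel -/
theorem integral_ker_ge (L : ℕ) (hL : 0 < L) (F : Finset (J → ℤ)) (hF : F.Nonempty)
    (S : Finset (J → ℤ)) (hS : ∀ v : J → Fin L, ∀ x ∈ F, cub L v + x ∈ S) :
    (F.card : ℝ) / S.card ≤ ∫ θ, ker L θ ∂(sigF F) := by

  have hFc : (0 : ℝ) < F.card := by exact_mod_cast hF.card_pos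
  have hLp : (0 : ℝ) < (L : ℝ) ^ (Fintype.card J) := by positivity
  have hSc : (0 : ℝ) < S.card := by
    obtain ⟨x, hx⟩ := hF
    exact_mod_cast Finset.card_pos.2 ⟨_, hS (fun _ => ⟨0, hL⟩) x hx⟩
  rw [integral_sigF]
  have h1 : ∀ θ : TT J, gF F θ * ker L θ =
      ‖∑ q ∈ (univ : Finset (J → Fin L)) ×ˢ F, ee (cub L q.1 + q.2) θ‖ ^ 2 /
        (F.card * ((L : ℝ) ^ (Fintype.card J)) ^ 2) := by
    intro θ
    unfold gF ker
    rw [Finset.sum_product]
    simp_rw [ee_add, ← Finset.mul_sum]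
    rw [← Finset.sum_mul, norm_mul]
    field_simp
  simp_rw [h1]
  rw [integral_div]
  have h2 := card_sq_le ((univ : Finset (J → Fin L)) ×ˢ F) (fun q => cub L q.1 + q.2) S
    (fun q hq => hS q.1 q.2 (Finset.mem_product.1 hq).2)
  have h3 : ((((univ : Finset (J → Fin L)) ×ˢ F).card : ℕ) : ℝ) =
      (L : ℝ) ^ (Fintype.card J) * F.card := by
    rw [Finset.card_product, Finset.card_univ, Fintype.card_fun, Fintype.card_fin]
    push_cast
    rfl
  rw [h3] at h2
  rw [div_le_div_iff₀ hSc (by positivity)]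
  calc (F.card : ℝ) * (F.card * ((L : ℝ) ^ (Fintype.card J)) ^ 2)
      = ((L : ℝ) ^ (Fintype.card J) * F.card) ^ 2 := by ring
    _ ≤ _ := h2
    _ = _ := by ring

end

end Pool.Agent.USC
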