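import Pool.Agent.USC.Kernel

set_option autoImplicit false

/-!
# MP_4086d8_co: the spectral measure of a set of positive upper Banach density
-/

namespace Pool.Agent.USC

open MeasureTheory Finset Filter Topology

noncomputable section

variable {J : Type} [Fintype J] [DecidableEq J]

/-- the box `∏ [q1, q2)` -/
def box (q1 q2 : J → ℤ) : Finset (J → ℤ) := Fintype.piFinset fun j => Finset.Ico (q1 j) (q2 j)

theorem mem_box (q1 q2 x : J → ℤ) : x ∈ box q1 q2 ↔ ∀ j, q1 j ≤ x j ∧ x j < q2 j := by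
  unfold box
  rw [Fintype.mem_piFinset]
  simp only [Finset.mem_Ico]

theorem card_box (q1 q2 : J → ℤ) (h : ∀ j, q1 j ≤ q2 j) :
    ((box q1 q2).card : ℝ) = ∏ j, ((q2 j : ℝ) - q1 j) := by
  unfold box
  rw [Fintype.card_piFinset, Nat.cast_prod]
  refine Finset.prod_congr rfl fun j _ => ?_
  rw [Int.card_Ico]
  have h1 : ((q2 j - q1 j).toNat : ℤ) = q2 j - q1 j := Int.toNat_of_nonneg (sub_nonneg.2 (h j))
  have h2 : (((q2 j - q1 j).toNat : ℤ) : ℝ) = ((q2 j - q1 j : ℤ) : ℝ) := by rw [h1]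
  push_cast at h2
  exact h2

omit [DecidableEq J] in
/-- lower bound for the ratio of a box and its enlargement -/
theorem ratio_ge (N L : ℕ) (q1 q2 : J → ℤ) (h : ∀ j, q1 j + ((N : ℤ) + 1) ≤ q2 j) :
    (((N : ℝ) + 1) / ((N : ℝ) + 1 + L)) ^ (Fintype.card J) ≤
      (∏ j, ((q2 j : ℝ) - q1 j)) / (∏ j, ((q2 j : ℝ) + L - q1 j)) := by
  rw [← Finset.prod_div_distrib]
  have h1 : (((N : ℝ) + 1) / ((N : ℝ) + 1 + L)) ^ (Fintype.card J) =
      ∏ _j : J, (((N : ℝ) + 1) / ((N : ℝ) + 1 + L)) := by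
    rw [Finset.prod_const, Finset.card_univ]
  rw [h1]
  refine Finset.prod_le_prod (fun j _ => by positivity) fun j _ => ?_
  have h2 : (q1 j : ℝ) + ((N : ℝ) + 1) ≤ q2 j := by exact_mod_cast h j
  have h3 : (0 : ℝ) ≤ N := Nat.cast_nonneg N
  have h4 : (0 : ℝ) ≤ L := Nat.cast_nonneg L
  rw [div_le_div_iff₀ (by linarith) (by linarith)]
  nlinarith

/-- the hypothesis: large boxes in which `S` has density almost `α` -/
def Dense (S : Set (J → ℤ)) (α : ℝ) : Prop :=
  ∀ ε : ℝ, 0 < ε → ∀ N : ℕ, ∃ q1 q2 : J → ℤ, (∀ j, q1 j + N ≤ q2 j) ∧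
    (α - ε) * ∏ j, ((q2 j : ℝ) - q1 j) ≤ ((S ∩ {x | ∀ j, q1 j ≤ x j ∧ x j < q2 j}).ncard : ℝ)

open Classical in
theorem exists_sets (S : Set (J → ℤ)) (α : ℝ) (hα : 0 < α) (hS : Dense S α) (N : ℕ) :
    ∃ F : Finset (J → ℤ), F.Nonempty ∧ (∀ x ∈ F, x ∈ S) ∧ ∀ L : ℕ, 0 < L →
      (α - α / (N + 2)) * (((N : ℝ) + 1) / ((N : ℝ) + 1 + L)) ^ (Fintype.card J) ≤
        ∫ θ, ker L θ ∂(sigF F) := by
  have hN : (0 : ℝ) < (N : ℝ) + 2 := by positivity
  obtain ⟨q1, q2, hq, hd⟩ := hS (α / (N + 2)) (by positivity) (N + 1)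
  have hq' : ∀ j, q1 j + ((N : ℤ) + 1) ≤ q2 j := by
    intro j
    have := hq j
    push_cast at this
    exact this
  have hle : ∀ j, q1 j ≤ q2 j := fun j => by
    have := hq' j
    have h0 : (0 : ℤ) ≤ N := Int.natCast_nonneg N
    omega
  set F : Finset (J → ℤ) := (box q1 q2).filter (fun x => x ∈ S) with hF
  have hFc : ((S ∩ {x | ∀ j, q1 j ≤ x j ∧ x j < q2 j}).ncard) = F.card := by
    rw [← Set.ncard_coe_finset]
    congr 1
    ext x
    simp only [Set.mem_inter_iff, Set.mem_ofPred_eq, hF, Finset.coe_filter, mem_box]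
    exact and_comm
  rw [hFc] at hd
  have hβ : 0 < α - α / (N + 2) := by
    rw [sub_pos, div_lt_iff₀ hN]
    nlinarith
  have hprod : (0 : ℝ) < ∏ j, ((q2 j : ℝ) - q1 j) := by
    refine Finset.prod_pos fun j _ => ?_
    have h2 : (q1 j : ℝ) + ((N : ℝ) + 1) ≤ q2 j := by exact_mod_cast hq' j
    have h3 : (0 : ℝ) ≤ N := Nat.cast_nonneg N
    linarith
  have hFpos : (0 : ℝ) < F.card := lt_of_lt_of_le (mul_pos hβ hprod) hd
  have hFne : F.Nonempty := Finset.card_pos.1 (by exact_mod_cast hFpos)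
  refine ⟨F, hFne, fun x hx => (Finset.mem_filter.1 hx).2, fun L hL => ?_⟩
  have hS' : ∀ v : J → Fin L, ∀ x ∈ F, cub L v + x ∈ box q1 (fun j => q2 j + L) := by
    intro v x hx
    rw [mem_box]
    have hx' := (mem_box q1 q2 x).1 (Finset.mem_filter.1 hx).1
    intro j
    have h1 := hx' j
    have h2 : ((v j : ℕ) : ℤ) < L := by exact_mod_cast (v j).2
    have h3 : (0 : ℤ) ≤ ((v j : ℕ) : ℤ) := Int.natCast_nonneg _
    rw [Pi.add_apply]
    unfold cub
    constructor
    · omega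
    · omega
  have h5 := integral_ker_ge L hL F hFne _ hS'
  refine le_trans ?_ h5
  have hcb : ((box q1 (fun j => q2 j + L)).card : ℝ) = ∏ j, ((q2 j : ℝ) + L - q1 j) := by
    rw [card_box]
    · refine Finset.prod_congr rfl fun j _ => ?_
      push_cast
      ring
    · intro j
      have := hle j
      have h0 : (0 : ℤ) ≤ L := Int.natCast_nonneg L
      omega
  rw [hcb]
  have hprod2 : (0 : ℝ) < ∏ j, ((q2 j : ℝ) + L - q1 j) := by
    refine Finset.prod_pos fun j _ => ?_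
    have h2 : (q1 j : ℝ) + ((N : ℝ) + 1) ≤ q2 j := by exact_mod_cast hq' j
    have h3 : (0 : ℝ) ≤ N := Nat.cast_nonneg N
    have h4 : (0 : ℝ) ≤ L := Nat.cast_nonneg L
    linarith
  calc _ ≤ (α - α / (N + 2)) * ((∏ j, ((q2 j : ℝ) - q1 j)) / (∏ j, ((q2 j : ℝ) + L - q1 j))) :=
        mul_le_mul_of_nonneg_left (ratio_ge N L q1 q2 hq') hβ.le
    _ = ((α - α / (N + 2)) * ∏ j, ((q2 j : ℝ) - q1 j)) / (∏ j, ((q2 j : ℝ) + L - q1 j)) := by
        rw [mul_div_assoc]
    _ ≤ _ := div_le_div_of_nonneg_right hd hprod2.le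

theorem tendsto_lower (α : ℝ) (L k : ℕ) :
    Tendsto (fun N : ℕ => (α - α / (N + 2)) * (((N : ℝ) + 1) / ((N : ℝ) + 1 + L)) ^ k) atTop
      (𝓝 α) := by
  have h1 : Tendsto (fun N : ℕ => α / ((N : ℝ) + 2)) atTop (𝓝 0) := by
    have := (tendsto_const_div_atTop_nhds_zero_nat α).comp (tendsto_add_atTop_nat 2)
    refine this.congr fun N => ?_
    simp
  have h2 : Tendsto (fun N : ℕ => ((N : ℝ) + 1) / ((N : ℝ) + 1 + L)) atTop (𝓝 1) := by
    have h3 : Tendsto (fun N : ℕ => 1 - (L : ℝ) / ((N : ℝ) + 1 + L)) atTop (𝓝 (1 - 0)) := by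
      refine tendsto_const_nhds.sub ?_
      have := (tendsto_const_div_atTop_nhds_zero_nat (L : ℝ)).comp (tendsto_add_atTop_nat (1 + L))
      refine this.congr fun N => ?_
      simp only [Function.comp_apply, Nat.cast_add, Nat.cast_one]
      congr 1
      ring
    rw [sub_zero] at h3
    refine h3.congr fun N => ?_
    have h4 : (N : ℝ) + 1 + L ≠ 0 := by positivity
    field_simp
    ring
  have h5 := (tendsto_const_nhds (x := α)).sub h1
  have h6 := h5.mul (h2.pow k)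
  simpa using h6

/-- the spectral measure -/
theorem exists_sigma (S : Set (J → ℤ)) (α : ℝ) (hα : 0 < α) (hS : Dense S α) :
    ∃ σ : Measure (TT J), IsProbabilityMeasure σ ∧ α ≤ σ.real {0} ∧
      ∀ v : J → ℤ, (∀ x ∈ S, ∀ y ∈ S, x - y ≠ v) → ∫ θ, (ee v θ).re ∂σ = 0 := by
  choose F hF1 hF2 hF3 using exists_sets S α hα hS
  set s : ℕ → ProbabilityMeasure (TT J) := fun N => ⟨sigF (F N), prob_sigF _ (hF1 N)⟩ with hs
  obtain ⟨σ, -, hσ⟩ := (isCompact_univ (X := ProbabilityMeasure (TT J))).ultrafilter_le_nhds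
    ((hyperfilter ℕ).map s) (by simp)
  have hlim : Tendsto s (hyperfilter ℕ : Filter ℕ) (𝓝 σ) := hσ
  have hlim2 : ∀ f : TT J → ℝ, Continuous f →
      Tendsto (fun N => ∫ θ, f θ ∂(sigF (F N))) (hyperfilter ℕ : Filter ℕ)
        (𝓝 (∫ θ, f θ ∂(σ : Measure (TT J)))) := by
    intro f hf
    have h1 := (ProbabilityMeasure.tendsto_iff_forall_integral_tendsto.1 hlim)
      (BoundedContinuousFunction.mkOfCompact ⟨f, hf⟩)
    exact h1
  refine ⟨σ, inferInstance, ?_, ?_⟩
  · -- mass of zero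
    have h1 : ∀ L : ℕ, 0 < L → α ≤ ∫ θ, ker L θ ∂(σ : Measure (TT J)) := by
      intro L hL
      have h2 := hlim2 (ker L) (continuous_ker L)
      have h3 := (tendsto_lower α L (Fintype.card J)).mono_left
        (Nat.hyperfilter_le_atTop)
      exact le_of_tendsto_of_tendsto h3 h2 (Eventually.of_forall fun N => hF3 N L hL)
    have h4 : Tendsto (fun L => ∫ θ, ker L θ ∂(σ : Measure (TT J))) atTop
        (𝓝 (∫ θ, Set.indicator {0} (fun _ => (1 : ℝ)) θ ∂(σ : Measure (TT J)))) := by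
      refine tendsto_integral_of_dominated_convergence (fun _ => (1 : ℝ))
        (fun L => (continuous_ker L).aestronglyMeasurable) (integrable_const _) ?_ ?_
      · intro L
        refine Eventually.of_forall fun θ => ?_
        rw [Real.norm_of_nonneg (ker_nonneg L θ)]
        exact ker_le_one L θ
      · exact Eventually.of_forall fun θ => tendsto_ker θ
    have h5 : ∫ θ, Set.indicator {0} (fun _ => (1 : ℝ)) θ ∂(σ : Measure (TT J)) =
        (σ : Measure (TT J)).real {0} := by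
      rw [integral_indicator (measurableSet_singleton _), setIntegral_const, smul_eq_mul,
        mul_one]
    rw [h5] at h4
    exact ge_of_tendsto h4 (by
      filter_upwards [eventually_gt_atTop 0] with L hL
      exact h1 L hL)
  · intro v hv
    have h1 := hlim2 (fun θ => (ee v θ).re) (Complex.continuous_re.comp (continuous_ee v))
    have h2 : ∀ N, ∫ θ, (ee v θ).re ∂(sigF (F N)) = 0 := fun N =>
      integral_sigF_ee (F N) v fun x hx y hy => hv x (hF2 N x hx) y (hF2 N y hy)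
    simp_rw [h2] at h1
    exact (tendsto_nhds_unique h1 tendsto_const_nhds)

end

end Pool.Agent.USC
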