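import Pool.Agent.USC.Family
import Pool.Agent.USC.Comp

set_option autoImplicit false

/-!
# MP_4086d8_co: the uniform scale, density in the form `Dense`
-/

namespace Pool.Agent.USC

open Finset Filter Topology

noncomputable section

/-- the index set of the coordinates: all places except the last diagonal one -/
abbrev Idx (d : ℕ) : Type :=
  {p : Fin d × Fin d // ¬ (p.1.val + 1 = d ∧ p.2.val + 1 = d)}

/-- the coordinates of a trace-zero matrix -/
def coord {d : ℕ} (X : Matrix (Fin d) (Fin d) ℤ) : Idx d → ℤ := fun p => X p.1.1 p.1.2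

theorem coord_inj {d : ℕ} (hd : 2 ≤ d) (X Y : Matrix (Fin d) (Fin d) ℤ) (hX : X.trace = Y.trace)
    (h : coord X = coord Y) : X = Y := by
  have h1 : ∀ i j : Fin d, ¬ (i.val + 1 = d ∧ j.val + 1 = d) → X i j = Y i j := fun i j hij =>
    congrFun h ⟨(i, j), hij⟩
  have hl : d - 1 < d := by omega
  have h2 : X ⟨d - 1, hl⟩ ⟨d - 1, hl⟩ = Y ⟨d - 1, hl⟩ ⟨d - 1, hl⟩ := by
    unfold Matrix.trace at hX
    rw [← Finset.add_sum_erase _ _ (Finset.mem_univ (⟨d - 1, hl⟩ : Fin d)),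
      ← Finset.add_sum_erase _ _ (Finset.mem_univ (⟨d - 1, hl⟩ : Fin d))] at hX
    have h3 : ∑ i ∈ Finset.univ.erase (⟨d - 1, hl⟩ : Fin d), X.diag i =
        ∑ i ∈ Finset.univ.erase (⟨d - 1, hl⟩ : Fin d), Y.diag i := by
      refine Finset.sum_congr rfl fun i hi => ?_
      have hi1 : i ≠ ⟨d - 1, hl⟩ := (Finset.mem_erase.1 hi).1
      refine h1 i i fun hh => hi1 (Fin.ext ?_)
      show i.val = d - 1
      omega
    rw [h3] at hX
    exact add_right_cancel hX
  refine Matrix.ext fun i j => ?_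
  by_cases hij : i.val + 1 = d ∧ j.val + 1 = d
  · have hi : i = ⟨d - 1, hl⟩ := Fin.ext (by show i.val = d - 1; omega)
    have hj : j = ⟨d - 1, hl⟩ := Fin.ext (by show j.val = d - 1; omega)
    rw [hi, hj]
    exact h2
  · exact h1 i j hij

/-- the trace from the characteristic polynomial -/
theorem trace_eq_of_charpoly_eq {d : ℕ} (hd : 2 ≤ d) (X Y : Matrix (Fin d) (Fin d) ℤ)
    (h : X.charpoly = Y.charpoly) : X.trace = Y.trace := by
  have : Nonempty (Fin d) := ⟨⟨0, by omega⟩⟩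
  rw [Matrix.trace_eq_neg_charpoly_coeff, Matrix.trace_eq_neg_charpoly_coeff, h]

theorem uniform_scale (d : ℕ) (hd : 2 ≤ d) (α : ℝ) (hα : 0 < α) :
    ∃ k : ℕ, 1 ≤ k ∧ ∀ E : Set (Matrix (Fin d) (Fin d) ℤ), (∀ X ∈ E, X.trace = 0) →
      Dense (coord '' E) α → ∀ A : Matrix (Fin d) (Fin d) ℤ, A.trace = 0 →
        ∃ X ∈ E, ∃ Y ∈ E, (X - Y).charpoly = ((k : ℤ) • A).charpoly := by
  obtain ⟨L, hL⟩ : ∃ L : ℕ, 2 / α < L := exists_nat_gt _
  have hL0 : 0 < L := by
    have h1 : (0 : ℝ) < 2 / α := by positivity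
    exact_mod_cast h1.trans hL
  have hL' : (0 : ℝ) < L := by exact_mod_cast hL0
  have hLα : 1 / (L : ℝ) < α / 2 := by
    rw [div_lt_iff₀ hα] at hL
    rw [div_lt_iff₀ hL']
    linarith
  obtain ⟨ε, hε0, hε⟩ : ∃ ε : ℝ, 0 < ε ∧ 1 / L + ε < α :=
    ⟨α / 2, by positivity, by linarith⟩
  have hl : d - 1 < d := by omega
  have h1d : 1 < d := hd
  have h0d : 0 < d := by omega
  obtain ⟨M, R, hM, hR, hfam⟩ := exists_family
    (fun p : Fin d × Fin d => ¬ (p.1.val + 1 = d ∧ p.2.val + 1 = d))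
    (⟨0, h0d⟩ : Fin d) ⟨1, h1d⟩ ⟨d - 1, hl⟩ (by
      intro h
      have := congrArg Fin.val h
      simp at this) (by
      intro p
      rw [not_iff_not]
      constructor
      · rintro ⟨h1, h2⟩
        refine Prod.ext (Fin.ext ?_) (Fin.ext ?_)
        · show p.1.val = d - 1
          omega
        · show p.2.val = d - 1
          omega
      · intro h
        rw [h]
        constructor
        · show d - 1 + 1 = d
          omega
        · show d - 1 + 1 = d
          omega) ε hε0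
  refine ⟨(M ^ L).natAbs, ?_, ?_⟩
  · exact Nat.one_le_iff_ne_zero.2 (Int.natAbs_ne_zero.2 (pow_ne_zero _ hM))
  intro E hE hdense A hA
  obtain ⟨j, hj, hdiff⟩ := exists_diff (coord '' E) α hα hdense M L hL0 ε hε0.le hε
  -- the scaled matrix
  obtain ⟨c, hc⟩ : ∃ c : ℤ, (((M ^ L).natAbs : ℕ) : ℤ) = M ^ j * c := by
    have h1 : M ^ j ∣ (((M ^ L).natAbs : ℕ) : ℤ) :=
      Int.dvd_natAbs.2 (pow_dvd_pow M hj.le)
    obtain ⟨c, hc⟩ := h1
    exact ⟨c, hc⟩
  have hcA : (c • A).trace = 0 := by rw [Matrix.trace_smul, hA, smul_zero]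
  obtain ⟨C, hC, hC1⟩ := exists_companion d hd (c • A).charpoly (Matrix.charpoly_monic _)
    (by rw [Matrix.charpoly_natDegree_eq_dim, Fintype.card_fin])
  obtain ⟨B, hB, hBθ⟩ := hfam C hC1
  obtain ⟨s, t, x, ⟨X, hX, rfl⟩, y, ⟨Y, hY, rfl⟩, hxy⟩ := hdiff R
    (fun s t => crd _ (B s t)) hR hBθ
  refine ⟨X, hX, Y, hY, ?_⟩
  have hBt : (B s t).trace = 0 := by
    rw [← hcA]
    exact trace_eq_of_charpoly_eq hd _ _ ((hB s t).trans hC)
  have h2 : X - Y = (M ^ j) • B s t := by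
    refine coord_inj hd _ _ ?_ ?_
    · rw [Matrix.trace_sub, Matrix.trace_smul, hE X hX, hE Y hY, hBt, sub_self, smul_zero]
    · funext p
      have h3 := congrFun hxy p
      exact h3
  rw [h2, hc, mul_smul]
  exact charpoly_smul_eq _ (pow_ne_zero _ hM) _ _ ((hB s t).trans hC)

end

end Pool.Agent.USC
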