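import Pool.Agent.USC.Limit

set_option autoImplicit false

/-!
# MP_4086d8_co: a chain of scales and the pigeonhole principle
-/

namespace Pool.Agent.USC

open MeasureTheory Finset Filter Topology

noncomputable section

variable {J : Type} [Fintype J] [DecidableEq J]

/-- `θ` is killed by `M ^ j` -/
def RR (J : Type) (M : ℤ) (j : ℕ) : Set (TT J) := {θ | (M ^ j) • θ = 0}

omit [DecidableEq J] in
theorem measurableSet_RR (M : ℤ) (j : ℕ) : MeasurableSet (RR J M j) := by
  have h1 : IsClosed (RR J M j) := by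
    have h2 : Continuous (fun θ : TT J => (M ^ j) • θ) := continuous_zsmul _
    exact isClosed_eq h2 continuous_const
  exact h1.measurableSet

omit [DecidableEq J] [Fintype J] in
theorem RR_mono (M : ℤ) (j : ℕ) : RR J M j ⊆ RR J M (j + 1) := by
  intro θ hθ
  have h1 : (M ^ j) • θ = 0 := hθ
  show (M ^ (j + 1)) • θ = 0
  rw [pow_succ', mul_smul, h1, smul_zero]

omit [DecidableEq J] [Fintype J] in
/-- pigeonhole: some scale carries little mass -/
theorem exists_scale (σ : Measure (TT J)) [IsProbabilityMeasure σ] (M : ℤ) (L : ℕ) (hL : 0 < L) :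
    ∃ j < L, σ.real (RR J M (j + 1)) - σ.real (RR J M j) ≤ 1 / L := by
  by_contra hcon
  push Not at hcon
  have h1 : ∑ j ∈ range L, (1 / (L : ℝ)) < ∑ j ∈ range L,
      (σ.real (RR J M (j + 1)) - σ.real (RR J M j)) :=
    Finset.sum_lt_sum_of_nonempty (by simpa using hL.ne') fun j hj =>
      hcon j (Finset.mem_range.1 hj)
  rw [Finset.sum_range_sub (fun j => σ.real (RR J M j))] at h1
  rw [Finset.sum_const, Finset.card_range, nsmul_eq_mul, mul_one_div,
    div_self (by exact_mod_cast hL.ne')] at h1
  have h2 : σ.real (RR J M L) ≤ 1 := measureReal_le_one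
  have h3 : 0 ≤ σ.real (RR J M 0) := measureReal_nonneg
  linarith

omit [DecidableEq J] in
theorem ee_smul (c : ℤ) (v : J → ℤ) (θ : TT J) : ee (c • v) θ = ee v (c • θ) := by
  unfold ee
  rw [pair_smul, pair_smul']

/-- the average -/
def av (R : ℕ) (B : ℕ → ℕ → J → ℤ) (T : ℕ) (θ : TT J) : ℂ :=
  ∑ s ∈ range R, ∑ t ∈ range T, ee (B s t) θ

omit [DecidableEq J] in
theorem continuous_av (R : ℕ) (B : ℕ → ℕ → J → ℤ) (T : ℕ) :
    Continuous (av R B T : TT J → ℂ) := by
  unfold av
  exact continuous_finsetSum _ fun s _ => continuous_finsetSum _ fun t _ => continuous_ee _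

omit [DecidableEq J] in
theorem norm_av_le (R : ℕ) (B : ℕ → ℕ → J → ℤ) (T : ℕ) (θ : TT J) :
    ‖av R B T θ‖ ≤ R * T := by
  unfold av
  calc _ ≤ ∑ s ∈ range R, ‖∑ t ∈ range T, ee (B s t) θ‖ := norm_sum_le _ _
    _ ≤ ∑ s ∈ range R, (T : ℝ) := by
        refine Finset.sum_le_sum fun s _ => ?_
        calc _ ≤ ∑ t ∈ range T, ‖ee (B s t) θ‖ := norm_sum_le _ _
          _ = T := by
              rw [Finset.sum_congr rfl fun t _ => norm_ee _ _]
              simp
    _ = R * T := by simp

theorem exists_diff (S : Set (J → ℤ)) (α : ℝ) (hα : 0 < α) (hS : Dense S α) (M : ℤ) (L : ℕ)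
    (hL : 0 < L) (ε : ℝ) (hε : 0 ≤ ε) (hεα : 1 / L + ε < α) :
    ∃ j < L, ∀ (R : ℕ) (B : ℕ → ℕ → J → ℤ), 0 < R →
      (∀ θ : TT J, M • θ ≠ 0 → ∀ᶠ T : ℕ in atTop, ‖av R B T θ‖ ≤ ε * (R * T)) →
      ∃ s t, ∃ x ∈ S, ∃ y ∈ S, x - y = (M ^ j) • B s t := by
  obtain ⟨σ, hσ, hσ0, hσe⟩ := exists_sigma S α hα hS
  obtain ⟨j, hj, hjσ⟩ := exists_scale σ M L hL
  refine ⟨j, hj, fun R B hR hB => ?_⟩
  by_contra hcon
  push Not at hcon
  have hR' : (0 : ℝ) < R := by exact_mod_cast hR
  -- all averages vanish
  have h0 : ∀ T : ℕ, ∫ θ, (av R B T ((M ^ j) • θ)).re ∂σ = 0 := by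
    intro T
    have h1 : ∀ θ : TT J, (av R B T ((M ^ j) • θ)).re =
        ∑ s ∈ range R, ∑ t ∈ range T, (ee ((M ^ j) • B s t) θ).re := by
      intro θ
      unfold av
      rw [Complex.re_sum]
      refine Finset.sum_congr rfl fun s _ => ?_
      rw [Complex.re_sum]
      refine Finset.sum_congr rfl fun t _ => ?_
      rw [ee_smul]
    have hint : ∀ v : J → ℤ, Integrable (fun θ : TT J => (ee v θ).re) σ := fun v =>
      (Complex.continuous_re.comp (continuous_ee v)).integrable_of_hasCompactSupport
        (HasCompactSupport.of_compactSpace _)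
    simp_rw [h1]
    rw [integral_finsetSum _ fun s _ => integrable_finsetSum _ fun t _ => hint _]
    refine Finset.sum_eq_zero fun s _ => ?_
    rw [integral_finsetSum _ fun t _ => hint _]
    refine Finset.sum_eq_zero fun t _ => ?_
    exact hσe _ fun x hx y hy => hcon s t x hx y hy
  -- the error function
  set A : Set (TT J) := (RR J M (j + 1))ᶜ with hA
  have hAm : MeasurableSet A := (measurableSet_RR M (j + 1)).compl
  set hh : ℕ → TT J → ℝ := fun T θ =>
    A.indicator (fun θ => max (‖av R B T ((M ^ j) • θ)‖ / (R * T) - ε) 0) θ with hhdef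
  have hcont : ∀ T, Continuous (fun θ : TT J => av R B T ((M ^ j) • θ)) := fun T =>
    (continuous_av R B T).comp (continuous_zsmul _)
  have hhmeas : ∀ T, Measurable (hh T) := by
    intro T
    refine Measurable.indicator ?_ hAm
    exact (((hcont T).norm.div_const _).sub continuous_const).measurable.max measurable_const
  have hhle : ∀ T θ, ‖hh T θ‖ ≤ 1 := by
    classical
    intro T θ
    rw [hhdef]
    simp only
    rw [Set.indicator_apply]
    split_ifs
    · rw [Real.norm_of_nonneg (le_max_right _ _)]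
      apply max_le _ zero_le_one
      have h1 : ‖av R B T ((M ^ j) • θ)‖ / (R * T) ≤ 1 := by
        rcases Nat.eq_zero_or_pos T with rfl | hT
        · simp
        · have hT' : (0 : ℝ) < T := by exact_mod_cast hT
          rw [div_le_one (by positivity)]
          exact norm_av_le R B T _
      linarith
    · rw [norm_zero]
      exact zero_le_one
  have hhlim : ∀ θ, Tendsto (fun T => hh T θ) atTop (𝓝 0) := by
    intro θ
    rw [hhdef]
    simp only
    by_cases hθ : θ ∈ A
    · have h1 : M • ((M ^ j) • θ) ≠ 0 := by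
        intro h2
        apply hθ
        show (M ^ (j + 1)) • θ = 0
        rw [pow_succ', mul_smul, h2]
      refine tendsto_const_nhds.congr' ?_
      filter_upwards [hB _ h1, eventually_gt_atTop 0] with T hT hT0
      rw [Set.indicator_of_mem hθ]
      have hT' : (0 : ℝ) < T := by exact_mod_cast hT0
      symm
      apply max_eq_right
      have h3 : ‖av R B T ((M ^ j) • θ)‖ / (R * T) ≤ ε := by
        rw [div_le_iff₀ (by positivity)]
        exact hT
      linarith
    · simp only [Set.indicator_of_notMem hθ]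
      exact tendsto_const_nhds
  have hhint : Tendsto (fun T => ∫ θ, hh T θ ∂σ) atTop (𝓝 0) := by
    have h1 := tendsto_integral_of_dominated_convergence (μ := σ) (F := hh)
      (f := fun _ => (0 : ℝ)) (fun _ => (1 : ℝ))
      (fun T => (hhmeas T).aestronglyMeasurable) (integrable_const _)
      (fun T => Eventually.of_forall fun θ => hhle T θ)
      (Eventually.of_forall fun θ => hhlim θ)
    simpa using h1
  have hhi : ∀ T, Integrable (hh T) σ := fun T =>
    (integrable_const (1 : ℝ)).mono' (hhmeas T).aestronglyMeasurable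
      (Eventually.of_forall fun θ => hhle T θ)
  -- the pointwise inequality
  have hpt : ∀ T : ℕ, 0 < T → ∀ θ : TT J,
      (RR J M j).indicator (fun _ => (1 : ℝ)) θ -
        ((RR J M (j + 1)).indicator (fun _ => (1 : ℝ)) θ -
          (RR J M j).indicator (fun _ => (1 : ℝ)) θ) - ε - hh T θ ≤
        (av R B T ((M ^ j) • θ)).re / (R * T) := by
    intro T hT θ
    have hT' : (0 : ℝ) < T := by exact_mod_cast hT
    have hRT : (0 : ℝ) < R * T := by positivity
    have hn := norm_av_le R B T ((M ^ j) • θ)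
    have hre : -(‖av R B T ((M ^ j) • θ)‖) ≤ (av R B T ((M ^ j) • θ)).re :=
      (abs_le.1 (Complex.abs_re_le_norm _)).1
    by_cases h1 : θ ∈ RR J M j
    · have h2 : θ ∈ RR J M (j + 1) := RR_mono M j h1
      have h3 : θ ∉ A := fun h4 => h4 h2
      rw [Set.indicator_of_mem h1, Set.indicator_of_mem h2, hhdef]
      simp only
      rw [Set.indicator_of_notMem h3]
      have h4 : (M ^ j) • θ = 0 := h1
      have h5 : av R B T (0 : TT J) = ((R * T : ℝ) : ℂ) := by
        unfold av
        simp_rw [ee_zero']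
        simp
      rw [h4, h5, Complex.ofReal_re, div_self hRT.ne']
      linarith
    · rw [Set.indicator_of_notMem h1]
      have hdiv : -(‖av R B T ((M ^ j) • θ)‖ / (R * T)) ≤
          (av R B T ((M ^ j) • θ)).re / (R * T) := by
        rw [← neg_div]
        exact div_le_div_of_nonneg_right hre hRT.le
      by_cases h2 : θ ∈ RR J M (j + 1)
      · have h3 : θ ∉ A := fun h4 => h4 h2
        rw [Set.indicator_of_mem h2, hhdef]
        simp only
        rw [Set.indicator_of_notMem h3]
        have h4 : ‖av R B T ((M ^ j) • θ)‖ / (R * T) ≤ 1 := (div_le_one hRT).2 hn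
        linarith
      · have h3 : θ ∈ A := h2
        rw [Set.indicator_of_notMem h2, hhdef]
        simp only
        rw [Set.indicator_of_mem h3]
        have h4 := le_max_left (‖av R B T ((M ^ j) • θ)‖ / (R * T) - ε) 0
        linarith
  -- integrate
  have hσR0 : α ≤ σ.real (RR J M j) := by
    refine hσ0.trans (measureReal_mono ?_ (measure_ne_top _ _))
    intro θ hθ
    rw [Set.mem_singleton_iff] at hθ
    show (M ^ j) • θ = 0
    rw [hθ, smul_zero]
  have hi1 : ∀ i, Integrable ((RR J M i).indicator (fun _ => (1 : ℝ))) σ := fun i =>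
    (integrable_const (1 : ℝ)).indicator (measurableSet_RR M i)
  have hi2 : ∀ i, ∫ θ, (RR J M i).indicator (fun _ => (1 : ℝ)) θ ∂σ = σ.real (RR J M i) := by
    intro i
    rw [integral_indicator (measurableSet_RR M i), setIntegral_const, smul_eq_mul, mul_one]
  have hfin : ∀ T : ℕ, 0 < T → α - 1 / L - ε ≤ ∫ θ, hh T θ ∂σ := by
    intro T hT
    have h1 : ∫ θ, ((RR J M j).indicator (fun _ => (1 : ℝ)) θ -
        ((RR J M (j + 1)).indicator (fun _ => (1 : ℝ)) θ -
          (RR J M j).indicator (fun _ => (1 : ℝ)) θ) - ε - hh T θ) ∂σ ≤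
        ∫ θ, (av R B T ((M ^ j) • θ)).re / (R * T) ∂σ := by
      refine integral_mono ((((hi1 j).sub ((hi1 (j + 1)).sub (hi1 j))).sub
        (integrable_const ε)).sub (hhi T)) ?_ (hpt T hT)
      exact ((Complex.continuous_re.comp (hcont T)).div_const _).integrable_of_hasCompactSupport
        (HasCompactSupport.of_compactSpace _)
    rw [integral_div, h0 T, zero_div] at h1
    have h2 : ∫ θ, ((RR J M j).indicator (fun _ => (1 : ℝ)) θ -
        ((RR J M (j + 1)).indicator (fun _ => (1 : ℝ)) θ -
          (RR J M j).indicator (fun _ => (1 : ℝ)) θ) - ε - hh T θ) ∂σ =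
        σ.real (RR J M j) - (σ.real (RR J M (j + 1)) - σ.real (RR J M j)) - ε -
          ∫ θ, hh T θ ∂σ := by
      have i1 : Integrable (fun θ => (RR J M (j + 1)).indicator (fun _ => (1 : ℝ)) θ -
          (RR J M j).indicator (fun _ => (1 : ℝ)) θ) σ := (hi1 (j + 1)).sub (hi1 j)
      have i2 : Integrable (fun θ => (RR J M j).indicator (fun _ => (1 : ℝ)) θ -
          ((RR J M (j + 1)).indicator (fun _ => (1 : ℝ)) θ -
          (RR J M j).indicator (fun _ => (1 : ℝ)) θ)) σ := (hi1 j).sub i1
      have i3 : Integrable (fun θ => (RR J M j).indicator (fun _ => (1 : ℝ)) θ -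
          ((RR J M (j + 1)).indicator (fun _ => (1 : ℝ)) θ -
          (RR J M j).indicator (fun _ => (1 : ℝ)) θ) - ε) σ := i2.sub (integrable_const ε)
      rw [integral_sub i3 (hhi T), integral_sub i2 (integrable_const ε),
        integral_sub (hi1 j) i1, integral_sub (hi1 (j + 1)) (hi1 j), hi2, hi2]
      simp
    rw [h2] at h1
    linarith
  have hlim2 : α - 1 / L - ε ≤ 0 := by
    refine ge_of_tendsto hhint ?_
    filter_upwards [eventually_gt_atTop 0] with T hT
    exact hfin T hT
  linarith

end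

end Pool.Agent.USC
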