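import Pool.Agent.USC.Torus

set_option autoImplicit false

/-!
# MP_4086d8_co: the measures attached to finite sets
-/

namespace Pool.Agent.USC

open MeasureTheory Finset

noncomputable section

variable {J : Type} [Fintype J]

theorem norm_sq_sum {ι : Type} (s : Finset ι) (a : ι → J → ℤ) (θ : TT J) :
    ((‖∑ i ∈ s, ee (a i) θ‖ ^ 2 : ℝ) : ℂ) = ∑ i ∈ s, ∑ i' ∈ s, ee (a i - a i') θ := by
  have h1 : ((‖∑ i ∈ s, ee (a i) θ‖ ^ 2 : ℝ) : ℂ) =
      (∑ i ∈ s, ee (a i) θ) * (starRingEnd ℂ) (∑ i ∈ s, ee (a i) θ) := by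
    rw [Complex.mul_conj, Complex.normSq_eq_norm_sq]
  rw [h1, map_sum, Finset.sum_mul_sum]
  refine Finset.sum_congr rfl fun i _ => Finset.sum_congr rfl fun i' _ => ?_
  rw [sub_eq_add_neg, ee_add, ee_neg]

theorem integrable_ee (v : J → ℤ) : Integrable (fun θ : TT J => ee v θ) :=
  (continuous_ee v).integrable_of_hasCompactSupport (HasCompactSupport.of_compactSpace _)

/-- the integral of `|∑ e(a_i θ)|^2 e(v θ)` -/
theorem integral_norm_sq {ι : Type} (s : Finset ι) (a : ι → J → ℤ) (v : J → ℤ) :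
    ∫ θ : TT J, ((‖∑ i ∈ s, ee (a i) θ‖ ^ 2 : ℝ) : ℂ) * ee v θ =
      ∑ i ∈ s, ∑ i' ∈ s, if a i - a i' + v = 0 then 1 else 0 := by
  simp_rw [norm_sq_sum, Finset.sum_mul, ← ee_add]
  rw [integral_finsetSum _ fun i _ => integrable_finsetSum _ fun i' _ => integrable_ee _]
  refine Finset.sum_congr rfl fun i _ => ?_
  rw [integral_finsetSum _ fun i' _ => integrable_ee _]
  refine Finset.sum_congr rfl fun i' _ => ?_
  exact integral_ee _

/-- real version for `v = 0` -/
theorem integral_norm_sq_real {ι : Type} (s : Finset ι) (a : ι → J → ℤ) :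
    ∫ θ : TT J, ‖∑ i ∈ s, ee (a i) θ‖ ^ 2 =
      ∑ i ∈ s, ∑ i' ∈ s, if a i = a i' then (1 : ℝ) else 0 := by
  have h1 := integral_norm_sq s a 0
  simp only [ee_zero, mul_one, add_zero, sub_eq_zero] at h1
  have h0 : ∫ θ : TT J, ((‖∑ i ∈ s, ee (a i) θ‖ ^ 2 : ℝ) : ℂ) =
      ((∫ θ : TT J, ‖∑ i ∈ s, ee (a i) θ‖ ^ 2 : ℝ) : ℂ) := integral_ofReal
  rw [h0] at h1
  have h2 : ((∑ i ∈ s, ∑ i' ∈ s, if a i = a i' then (1 : ℝ) else 0 : ℝ) : ℂ) =
      ∑ i ∈ s, ∑ i' ∈ s, if a i = a i' then 1 else 0 := by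
    push_cast
    refine Finset.sum_congr rfl fun i _ => Finset.sum_congr rfl fun i' _ => ?_
    split_ifs <;> simp
  rw [← h2] at h1
  exact_mod_cast h1

/-- Cauchy-Schwarz for the number of coincidences -/
theorem card_sq_le {ι : Type} (s : Finset ι) (a : ι → J → ℤ) (S : Finset (J → ℤ))
    (hS : ∀ i ∈ s, a i ∈ S) :
    (s.card : ℝ) ^ 2 ≤ S.card * ∫ θ : TT J, ‖∑ i ∈ s, ee (a i) θ‖ ^ 2 := by
  classical
  rw [integral_norm_sq_real]
  have h1 : ∑ i ∈ s, ∑ i' ∈ s, (if a i = a i' then (1 : ℝ) else 0) =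
      ∑ z ∈ S, ((s.filter fun i => a i = z).card : ℝ) ^ 2 := by
    have h2 : ∀ i ∈ s, ∑ i' ∈ s, (if a i = a i' then (1 : ℝ) else 0) =
        ((s.filter fun i' => a i' = a i).card : ℝ) := by
      intro i _
      rw [Finset.sum_ite, Finset.sum_const, Finset.sum_const_zero, add_zero, nsmul_eq_mul,
        mul_one]
      congr 2
      ext i'
      simp only [Finset.mem_filter, eq_comm]
    rw [Finset.sum_congr rfl h2]
    rw [← Finset.sum_fiberwise_of_maps_to hS]
    refine Finset.sum_congr rfl fun z _ => ?_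
    have h3 : ∀ i ∈ s.filter (fun i => a i = z), ((s.filter fun i' => a i' = a i).card : ℝ) =
        ((s.filter fun i' => a i' = z).card : ℝ) := by
      intro i hi
      rw [(Finset.mem_filter.1 hi).2]
    rw [Finset.sum_congr rfl h3, Finset.sum_const, nsmul_eq_mul, sq]
  have h4 : (s.card : ℝ) = ∑ z ∈ S, ((s.filter fun i => a i = z).card : ℝ) := by
    rw [Finset.card_eq_sum_card_fiberwise (f := a) (t := S) hS]
    push_cast
    rfl
  rw [h1, h4]
  exact sq_sum_le_card_mul_sum_sq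

/-- density -/
def gF (F : Finset (J → ℤ)) (θ : TT J) : ℝ := ‖∑ x ∈ F, ee x θ‖ ^ 2 / F.card

theorem gF_nonneg (F : Finset (J → ℤ)) (θ : TT J) : 0 ≤ gF F θ := by
  unfold gF
  positivity

theorem continuous_gF (F : Finset (J → ℤ)) : Continuous (gF F : TT J → ℝ) := by
  unfold gF
  have h1 : Continuous (fun θ : TT J => ∑ x ∈ F, ee x θ) :=
    continuous_finsetSum _ fun x _ => continuous_ee x
  exact (h1.norm.pow 2).div_const _

/-- the measure of a finite set -/
def sigF (F : Finset (J → ℤ)) : Measure (TT J) :=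
  volume.withDensity (fun θ => ENNReal.ofReal (gF F θ))

theorem integral_sigF (F : Finset (J → ℤ)) (f : TT J → ℝ) :
    ∫ θ, f θ ∂(sigF F) = ∫ θ, gF F θ * f θ := by
  unfold sigF
  rw [integral_withDensity_eq_integral_toReal_smul
    ((continuous_gF F).measurable.ennreal_ofReal) (by simp)]
  refine integral_congr_ae (Filter.Eventually.of_forall fun θ => ?_)
  simp only [smul_eq_mul]
  rw [ENNReal.toReal_ofReal (gF_nonneg F θ)]

theorem integral_gF (F : Finset (J → ℤ)) (hF : F.Nonempty) : ∫ θ : TT J, gF F θ = 1 := by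
  unfold gF
  rw [integral_div]
  have h1 := integral_norm_sq_real F (fun x => x)
  rw [h1]
  have h2 : ∀ x ∈ F, ∑ y ∈ F, (if x = y then (1 : ℝ) else 0) = 1 := by
    intro x hx
    classical
    rw [Finset.sum_ite_eq]
    exact if_pos hx
  rw [Finset.sum_congr rfl h2, Finset.sum_const, nsmul_eq_mul, mul_one]
  exact div_self (by exact_mod_cast hF.card_pos.ne')

theorem integrable_gF (F : Finset (J → ℤ)) : Integrable (fun θ : TT J => gF F θ) :=
  (continuous_gF F).integrable_of_hasCompactSupport (HasCompactSupport.of_compactSpace _)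

theorem prob_sigF (F : Finset (J → ℤ)) (hF : F.Nonempty) : IsProbabilityMeasure (sigF F) := by
  constructor
  unfold sigF
  rw [withDensity_apply _ MeasurableSet.univ, Measure.restrict_univ,
    ← ofReal_integral_eq_lintegral_ofReal (integrable_gF F)
      (Filter.Eventually.of_forall fun θ => gF_nonneg F θ), integral_gF F hF, ENNReal.ofReal_one]

/-- characters of non-differences have integral zero -/
theorem integral_sigF_ee (F : Finset (J → ℤ)) (v : J → ℤ)
    (hv : ∀ x ∈ F, ∀ y ∈ F, x - y ≠ v) : ∫ θ, (ee v θ).re ∂(sigF F) = 0 := by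
  rw [integral_sigF]
  have h1 : ∀ θ : TT J, gF F θ * (ee v θ).re =
      (((‖∑ x ∈ F, ee x θ‖ ^ 2 : ℝ) : ℂ) * ee v θ).re / F.card := by
    intro θ
    unfold gF
    rw [Complex.re_ofReal_mul]
    ring
  simp_rw [h1]
  rw [integral_div]
  have h2 : Integrable (fun θ : TT J => ((‖∑ x ∈ F, ee x θ‖ ^ 2 : ℝ) : ℂ) * ee v θ) := by
    have h3 : Continuous (fun θ : TT J => ((‖∑ x ∈ F, ee x θ‖ ^ 2 : ℝ) : ℂ) * ee v θ) := by
      have h4 : Continuous (fun θ : TT J => ∑ x ∈ F, ee x θ) :=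
        continuous_finsetSum _ fun x _ => continuous_ee x
      exact (Complex.continuous_ofReal.comp (h4.norm.pow 2)).mul (continuous_ee v)
    exact h3.integrable_of_hasCompactSupport (HasCompactSupport.of_compactSpace _)
  have h5 : ∫ θ : TT J, (((‖∑ x ∈ F, ee x θ‖ ^ 2 : ℝ) : ℂ) * ee v θ).re =
      (∫ θ : TT J, ((‖∑ x ∈ F, ee x θ‖ ^ 2 : ℝ) : ℂ) * ee v θ).re := by
    exact (integral_re h2)
  have h6 := integral_norm_sq F (fun x => x) v
  have h7 : ∑ x ∈ F, ∑ y ∈ F, (if x - y + v = 0 then (1 : ℂ) else 0) = 0 := by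
    refine Finset.sum_eq_zero fun x hx => Finset.sum_eq_zero fun y hy => ?_
    rw [if_neg]
    intro h0
    apply hv y hy x hx
    have h8 : v = -(x - y) := (neg_eq_of_add_eq_zero_right h0).symm
    rw [h8]; abel
  rw [h5, h6, h7, Complex.zero_re, zero_div]

end

end Pool.Agent.USC
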