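import Mathlib

set_option autoImplicit false

/-!
# MP_4086d8_co: characters of the torus, integrals of trigonometric polynomials
-/

namespace Pool.Agent.USC

open MeasureTheory Finset

noncomputable section

/-- the torus `(R / Z)^J` -/
abbrev TT (J : Type) : Type := J → UnitAddCircle

variable {J : Type} [Fintype J]

/-- the pairing of `Z^J` and the torus -/
def pair (v : J → ℤ) (θ : TT J) : UnitAddCircle := ∑ j, v j • θ j

/-- the character `e(v θ)` -/
def ee (v : J → ℤ) (θ : TT J) : ℂ := (AddCircle.toCircle (pair v θ) : ℂ)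

theorem pair_add (v w : J → ℤ) (θ : TT J) : pair (v + w) θ = pair v θ + pair w θ := by
  unfold pair
  rw [← Finset.sum_add_distrib]
  exact Finset.sum_congr rfl fun j _ => add_zsmul _ _ _

theorem pair_zero (θ : TT J) : pair (0 : J → ℤ) θ = 0 := by
  unfold pair
  exact Finset.sum_eq_zero fun j _ => zero_zsmul _

theorem pair_neg (v : J → ℤ) (θ : TT J) : pair (-v) θ = -pair v θ := by
  unfold pair
  rw [← Finset.sum_neg_distrib]
  exact Finset.sum_congr rfl fun j _ => neg_zsmul _ _

theorem pair_sub (v w : J → ℤ) (θ : TT J) : pair (v - w) θ = pair v θ - pair w θ := by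
  rw [sub_eq_add_neg, pair_add, pair_neg, ← sub_eq_add_neg]

theorem pair_smul (c : ℤ) (v : J → ℤ) (θ : TT J) : pair (c • v) θ = c • pair v θ := by
  unfold pair
  rw [Finset.smul_sum]
  refine Finset.sum_congr rfl fun j _ => ?_
  rw [Pi.smul_apply, smul_eq_mul, mul_zsmul]

theorem pair_smul' (c : ℤ) (v : J → ℤ) (θ : TT J) : pair v (c • θ) = c • pair v θ := by
  unfold pair
  rw [Finset.smul_sum]
  refine Finset.sum_congr rfl fun j _ => ?_
  rw [Pi.smul_apply, smul_comm]

theorem pair_add' (v : J → ℤ) (θ θ' : TT J) : pair v (θ + θ') = pair v θ + pair v θ' := by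
  unfold pair
  rw [← Finset.sum_add_distrib]
  refine Finset.sum_congr rfl fun j _ => ?_
  rw [Pi.add_apply, smul_add]

theorem pair_zero' (v : J → ℤ) : pair v (0 : TT J) = 0 := by
  unfold pair
  exact Finset.sum_eq_zero fun j _ => by rw [Pi.zero_apply, smul_zero]

theorem ee_add (v w : J → ℤ) (θ : TT J) : ee (v + w) θ = ee v θ * ee w θ := by
  unfold ee
  rw [pair_add, AddCircle.toCircle_add, Circle.coe_mul]

theorem ee_zero (θ : TT J) : ee (0 : J → ℤ) θ = 1 := by
  unfold ee
  rw [pair_zero, AddCircle.toCircle_zero, Circle.coe_one]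

theorem ee_zero' (v : J → ℤ) : ee v (0 : TT J) = 1 := by
  unfold ee
  rw [pair_zero', AddCircle.toCircle_zero, Circle.coe_one]

theorem ee_add' (v : J → ℤ) (θ θ' : TT J) : ee v (θ + θ') = ee v θ * ee v θ' := by
  unfold ee
  rw [pair_add', AddCircle.toCircle_add, Circle.coe_mul]

theorem norm_ee (v : J → ℤ) (θ : TT J) : ‖ee v θ‖ = 1 := by
  unfold ee
  exact Circle.norm_coe _

theorem ee_neg (v : J → ℤ) (θ : TT J) : ee (-v) θ = (starRingEnd ℂ) (ee v θ) := by
  have h1 : ee (-v) θ * ee v θ = 1 := by
    rw [← ee_add, neg_add_cancel, ee_zero]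
  have h2 : (starRingEnd ℂ) (ee v θ) * ee v θ = 1 := by
    rw [mul_comm, Complex.mul_conj, Complex.normSq_eq_norm_sq, norm_ee]
    simp
  have h3 : ee v θ ≠ 0 := by
    intro h0
    have := norm_ee v θ
    rw [h0, norm_zero] at this
    exact zero_ne_one this
  exact mul_right_cancel₀ h3 (h1.trans h2.symm)

theorem continuous_pair (v : J → ℤ) : Continuous (pair v : TT J → UnitAddCircle) := by
  unfold pair
  exact continuous_finsetSum _ fun j _ => (continuous_apply j).zsmul _

theorem continuous_ee (v : J → ℤ) : Continuous (ee v : TT J → ℂ) := by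
  have h1 : Continuous (fun z : Circle => (z : ℂ)) := by fun_prop
  have h2 : Continuous (AddCircle.toCircle : UnitAddCircle → Circle) :=
    AddCircle.continuous_toCircle
  exact h1.comp (h2.comp (continuous_pair v))

theorem ee_eq_one_iff (v : J → ℤ) (θ : TT J) : ee v θ = 1 ↔ pair v θ = 0 := by
  unfold ee
  constructor
  · intro h
    have h1 : AddCircle.toCircle (pair v θ) = AddCircle.toCircle (0 : UnitAddCircle) := by
      rw [AddCircle.toCircle_zero]
      ext1
      rw [h, Circle.coe_one]
    exact AddCircle.injective_toCircle one_ne_zero h1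
  · intro h
    rw [h, AddCircle.toCircle_zero, Circle.coe_one]

/-- for `v ≠ 0` some character value is not `1` -/
theorem exists_ee_ne_one (v : J → ℤ) (hv : v ≠ 0) : ∃ θ : TT J, ee v θ ≠ 1 := by
  classical
  obtain ⟨j, hj⟩ : ∃ j, v j ≠ 0 := by
    by_contra h
    push Not at h
    exact hv (funext h)
  refine ⟨Pi.single j (((1 / (2 * v j) : ℝ)) : UnitAddCircle), ?_⟩
  intro h
  rw [ee_eq_one_iff] at h
  unfold pair at h
  rw [Finset.sum_eq_single j] at h
  · rw [Pi.single_eq_same, ← AddCircle.coe_zsmul] at h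
    have h1 : (v j • (1 / (2 * (v j : ℝ))) : ℝ) = 1 / 2 := by
      have : (v j : ℝ) ≠ 0 := by exact_mod_cast hj
      rw [zsmul_eq_mul]
      field_simp
    rw [h1, AddCircle.coe_eq_zero_iff] at h
    obtain ⟨n, hn⟩ := h
    rw [zsmul_eq_mul, mul_one] at hn
    have h2 : (2 * n : ℝ) = 1 := by linarith
    have h3 : (2 * n : ℤ) = 1 := by exact_mod_cast h2
    omega
  · intro i _ hi
    rw [Pi.single_eq_of_ne hi, smul_zero]
  · intro h0
    exact absurd (Finset.mem_univ j) h0

instance prob1 : IsProbabilityMeasure (volume : Measure UnitAddCircle) := by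
  constructor
  rw [AddCircle.measure_univ, ENNReal.ofReal_one]

instance probJ : IsProbabilityMeasure (volume : Measure (TT J)) := by
  rw [volume_pi]
  infer_instance

theorem integral_ee (v : J → ℤ) :
    ∫ θ : TT J, ee v θ = if v = 0 then 1 else 0 := by
  split_ifs with hv
  · subst hv
    simp only [ee_zero]
    simp
  · obtain ⟨θ0, h0⟩ := exists_ee_ne_one v hv
    have h1 : ∫ θ : TT J, ee v (θ + θ0) = ∫ θ : TT J, ee v θ :=
      integral_add_right_eq_self (μ := (volume : Measure (TT J))) (fun θ => ee v θ) θ0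
    simp only [ee_add'] at h1
    rw [integral_mul_const] at h1
    have h2 : (∫ θ : TT J, ee v θ) * (ee v θ0 - 1) = 0 := by
      rw [mul_sub, h1, mul_one, sub_self]
    rcases mul_eq_zero.1 h2 with h3 | h3
    · exact h3
    · exact absurd (sub_eq_zero.1 h3) h0

end

end Pool.Agent.USC
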