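import Mathlib

set_option autoImplicit false

/-!
# MP_4086d8_co: polynomials with values in an abelian group and many zeros
-/

namespace Pool.Agent.USC

open Finset

noncomputable section

variable {A : Type*} [AddCommGroup A]

/-- the polynomial with coefficients `a` -/
def pol (D : ℕ) (a : ℕ → A) (s : ℤ) : A := ∑ l ∈ range D, s ^ l • a l

theorem vdm (D : ℕ) (a : ℕ → A) (x : Fin D → ℤ) (M : ℤ) (h : ∀ i, M • pol D a (x i) = 0)
    (l : ℕ) (hl : l < D) : ((Matrix.vandermonde x).det * M) • a l = 0 := by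
  set V := Matrix.vandermonde x with hV
  have h1 : ∀ i, pol D a (x i) = ∑ j : Fin D, V i j • a j := by
    intro i
    unfold pol
    rw [← Fin.sum_univ_eq_sum_range (fun l => x i ^ l • a l)]
    refine Finset.sum_congr rfl fun j _ => ?_
    rw [hV, Matrix.vandermonde_apply]
  have h2 : ∑ i, V.adjugate ⟨l, hl⟩ i • (M • pol D a (x i)) = (V.det * M) • a l := by
    have h3 : ∀ i, V.adjugate ⟨l, hl⟩ i • (M • pol D a (x i)) =
        ∑ j : Fin D, (M * (V.adjugate ⟨l, hl⟩ i * V i j)) • a j := by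
      intro i
      rw [h1, Finset.smul_sum, Finset.smul_sum]
      refine Finset.sum_congr rfl fun j _ => ?_
      rw [smul_smul, smul_smul]
      congr 1
      ring
    rw [Finset.sum_congr rfl fun i _ => h3 i, Finset.sum_comm]
    have h4 : ∀ j : Fin D, ∑ i, (M * (V.adjugate ⟨l, hl⟩ i * V i j)) • a j =
        (M * ((V.adjugate * V) ⟨l, hl⟩ j)) • a j := by
      intro j
      rw [← Finset.sum_smul, ← Finset.mul_sum, Matrix.mul_apply]
    rw [Finset.sum_congr rfl fun j _ => h4 j, Matrix.adjugate_mul, Finset.sum_eq_single ⟨l, hl⟩]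
    · rw [Matrix.smul_apply, Matrix.one_apply_eq, smul_eq_mul, mul_one, mul_comm]
    · intro j _ hj
      rw [Matrix.smul_apply, Matrix.one_apply_ne (Ne.symm hj), smul_zero, mul_zero, zero_smul]
    · intro h0
      exact absurd (Finset.mem_univ _) h0
  rw [← h2]
  refine Finset.sum_eq_zero fun i _ => ?_
  rw [h i, smul_zero]

/-- a common multiple of the Vandermonde determinants -/
def KK (R D : ℕ) : ℤ :=
  ∏ x : Fin D → Fin R, if (Matrix.vandermonde fun i => ((x i : ℕ) : ℤ)).det = 0 then 1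
    else (Matrix.vandermonde fun i => ((x i : ℕ) : ℤ)).det

theorem KK_ne (R D : ℕ) : KK R D ≠ 0 := by
  unfold KK
  rw [Finset.prod_ne_zero_iff]
  intro x _
  split_ifs with h
  · exact one_ne_zero
  · exact h

/-- a polynomial with many zeros is killed by a constant -/
theorem many_zeros (R D : ℕ) (a : ℕ → A) (M : ℤ)
    (h : ∃ Z : Finset ℕ, Z ⊆ range R ∧ D ≤ Z.card ∧ ∀ s ∈ Z, M • pol D a (s : ℤ) = 0)
    (l : ℕ) (hl : l < D) : (KK R D * M) • a l = 0 := by
  obtain ⟨Z, hZR, hZD, hZ⟩ := h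
  obtain ⟨Z', hZ', hc⟩ := Finset.exists_subset_card_eq hZD
  set e : Fin D ≃ Z' := (Z'.equivFinOfCardEq hc).symm with he
  have hmem : ∀ i : Fin D, ((e i : Z') : ℕ) ∈ Z' := fun i => (e i).2
  set x : Fin D → Fin R := fun i =>
    ⟨((e i : Z') : ℕ), Finset.mem_range.1 (hZR (hZ' (hmem i)))⟩ with hx
  have hinj : Function.Injective (fun i => ((x i : ℕ) : ℤ)) := by
    intro i i' hii
    have h0 : (((e i : Z') : ℕ) : ℤ) = (((e i' : Z') : ℕ) : ℤ) := hii
    have h1 : ((e i : Z') : ℕ) = ((e i' : Z') : ℕ) := by exact_mod_cast h0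
    exact e.injective (Subtype.ext h1)
  have hdet : (Matrix.vandermonde fun i => ((x i : ℕ) : ℤ)).det ≠ 0 :=
    Matrix.det_vandermonde_ne_zero_iff.2 hinj
  have h1 := vdm D a (fun i => ((x i : ℕ) : ℤ)) M (fun i => hZ _ (hZ' (hmem i))) l hl
  have hdvd : (Matrix.vandermonde fun i => ((x i : ℕ) : ℤ)).det ∣ KK R D := by
    have h2 := Finset.dvd_prod_of_mem (fun x : Fin D → Fin R =>
      if (Matrix.vandermonde fun i => ((x i : ℕ) : ℤ)).det = 0 then 1
      else (Matrix.vandermonde fun i => ((x i : ℕ) : ℤ)).det) (Finset.mem_univ x)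
    simp only [if_neg hdet] at h2
    exact h2
  obtain ⟨c, hc'⟩ := hdvd
  rw [hc', mul_right_comm, mul_comm, mul_smul, h1, smul_zero]

end

end Pool.Agent.USC
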